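import Pool.Agent.Lib.MP_3f6bc3_an.Bethe

set_option autoImplicit false

namespace Pool.Agent.Lib.MP_3f6bc3_an

open Finset Real

/-- cube root of `n` -/
noncomputable def v (n : ℕ) : ℝ := (n : ℝ) ^ ((1 : ℝ) / 3)

lemma v_nonneg (n : ℕ) : 0 ≤ v n := Real.rpow_nonneg (Nat.cast_nonneg n) _

lemma v_cube (n : ℕ) : v n ^ 3 = n := by
  unfold v
  rw [← Real.rpow_natCast, ← Real.rpow_mul (Nat.cast_nonneg n)]
  norm_num

lemma v_mono {m n : ℕ} (h : m ≤ n) : v m ≤ v n :=
  Real.rpow_le_rpow (Nat.cast_nonneg m) (by exact_mod_cast h) (by norm_num)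

lemma one_le_v {n : ℕ} (h : 1 ≤ n) : 1 ≤ v n := by
  have := v_mono h
  simpa [v] using this

lemma v_pos {n : ℕ} (h : 1 ≤ n) : 0 < v n := lt_of_lt_of_le one_pos (one_le_v h)

lemma v_tendsto : Filter.Tendsto v Filter.atTop Filter.atTop :=
  (tendsto_rpow_atTop (by norm_num)).comp tendsto_natCast_atTop_atTop

lemma v_step (j : ℕ) : 1 / v (j + 1) ^ 2 ≤ 3 * (v (j + 1) - v j) := by
  have h1 := v_cube j
  have h2 := v_cube (j + 1)
  have h3 := v_mono (Nat.le_succ j)
  have h4 := v_nonneg j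
  have h5 := v_pos (Nat.le_add_left 1 j)
  push_cast at h2
  rw [div_le_iff₀ (by positivity)]
  set a := v j
  set b := v (j + 1)
  have e : (b - a) * (b ^ 2 + a * b + a ^ 2) = 1 := by nlinarith
  have : b ^ 2 + a * b + a ^ 2 ≤ 3 * b ^ 2 := by nlinarith
  nlinarith [mul_le_mul_of_nonneg_left this (sub_nonneg.2 h3)]

lemma v_step2 {j : ℕ} (hj : 1 ≤ j) : 1 / v (j + 1) ^ 4 ≤ 3 * (1 / v j - 1 / v (j + 1)) := by
  have h1 := v_step j
  have h3 := v_mono (Nat.le_succ j)
  have h4 := v_pos hj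
  have h5 := v_pos (Nat.le_add_left 1 j)
  set a := v j
  set b := v (j + 1)
  have e : 3 * (1 / a - 1 / b) = 3 * (b - a) * (1 / (a * b)) := by field_simp
  have e2 : 1 / b ^ 4 = 1 / b ^ 2 * (1 / b ^ 2) := by field_simp
  rw [e, e2]
  apply mul_le_mul h1 _ (by positivity) (by linarith)
  apply one_div_le_one_div_of_le (by positivity)
  nlinarith

lemma sum_v2 (n : ℕ) : ∑ j ∈ range n, 1 / v (j + 1) ^ 2 ≤ 3 * v n := by
  induction n with
  | zero => simp [v]
  | succ n ih => rw [Finset.sum_range_succ]; linarith [v_step n]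

lemma sum_v4 {m n : ℕ} (hm : 1 ≤ m) (h : m ≤ n) :
    ∑ j ∈ Ico m n, 1 / v (j + 1) ^ 4 ≤ 3 * (1 / v m - 1 / v n) := by
  induction n, h using Nat.le_induction with
  | base => simp
  | succ n hn ih => rw [Finset.sum_Ico_succ_top hn]; linarith [v_step2 (hm.trans hn)]

lemma sum_v4' (n : ℕ) : ∑ j ∈ range n, 1 / v (j + 1) ^ 4 ≤ 4 := by
  rcases Nat.eq_zero_or_pos n with rfl | hn
  · simp
  · rw [Finset.range_eq_Ico, Finset.sum_eq_sum_Ico_succ_bot hn]
    have h1 := sum_v4 (le_refl 1) hn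
    have h2 : v 1 = 1 := by simp [v]
    have h3 : 0 < 1 / v n := by have := v_pos hn; positivity
    simp only [zero_add, h2] at *
    linarith

theorem apriori (N : ℕ) (r : ℕ → ℝ) (hr : ∀ j, 0 < r j)
    (he : ∀ k < N, (2 * (N : ℝ) - 1) * G bet (r k) - ∑ j ∈ range N, G eta (r k / r j)
        = π * (k + 1) - bet) :
    ∀ j < N, v (j + 1) ^ 2 / 2
      ≤ ((2 * (N : ℝ) - 1) - 2 * kap * ∑ j ∈ range N, 1 / r j) * r j := by
  intro j0 hj0
  have hN : 1 ≤ N := by omega
  have hN' : (1 : ℝ) ≤ N := by exact_mod_cast hN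
  obtain ⟨m, hm, hmin⟩ := Finset.exists_min_image (range N) (fun j => r j / v (j + 1) ^ 2)
    ⟨j0, Finset.mem_range.2 hj0⟩
  rw [Finset.mem_range] at hm
  set B := (2 * (N : ℝ) - 1) - 2 * kap * ∑ j ∈ range N, 1 / r j with hB
  set M := 2 * (N : ℝ) - 1 with hM
  have vp : ∀ j, 0 < v (j + 1) := fun j => v_pos (Nat.le_add_left 1 j)
  set U := v (m + 1) with hU
  have hU0 : 0 < U := vp m
  have hU1 : 1 ≤ U := one_le_v (Nat.le_add_left 1 m)
  have hU3 : U ^ 3 = m + 1 := by rw [hU, v_cube]; push_cast; ring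
  set ε := r m / U ^ 2 with hε
  have hε0 : 0 < ε := by have := hr m; positivity
  have hrm : r m = ε * U ^ 2 := by rw [hε]; field_simp
  have hlow : ∀ j < N, ε * v (j + 1) ^ 2 ≤ r j := by
    intro j hj
    have := hmin j (Finset.mem_range.2 hj)
    rwa [le_div_iff₀ (by have := vp j; positivity)] at this
  suffices h : 1 / 2 < B * ε by
    have hB0 : 0 < B := by
      by_contra hc
      push Not at hc
      nlinarith
    have := mul_le_mul_of_nonneg_left (hlow j0 hj0) hB0.le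
    have h2 : 0 < v (j0 + 1) ^ 2 := by have := vp j0; positivity
    nlinarith
  by_contra hc
  push Not at hc
  have hq : ∀ j < N, r m / r j ≤ U ^ 2 * (1 / v (j + 1) ^ 2) := by
    intro j hj
    have h2 : 0 < v (j + 1) ^ 2 := by have := vp j; positivity
    rw [div_le_iff₀ (hr j), hrm]
    calc ε * U ^ 2 = U ^ 2 * (1 / v (j + 1) ^ 2) * (ε * v (j + 1) ^ 2) := by
          have := vp j
          field_simp
      _ ≤ _ := mul_le_mul_of_nonneg_left (hlow j hj) (by positivity)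
  set S := ∑ j ∈ range N, r m / r j with hS
  have hS1 : S ≤ U ^ 2 * (3 * v N) := by
    calc S ≤ ∑ j ∈ range N, U ^ 2 * (1 / v (j + 1) ^ 2) :=
          Finset.sum_le_sum fun j hj => hq j (Finset.mem_range.1 hj)
      _ = U ^ 2 * ∑ j ∈ range N, 1 / v (j + 1) ^ 2 := by rw [Finset.mul_sum]
      _ ≤ _ := mul_le_mul_of_nonneg_left (sum_v2 N) (by positivity)
  have hsη : 0 < Real.sin eta := Real.sin_pos_of_pos_of_lt_pi eta_pos eta_lt
  have hσ : 0 < Real.sin bet := Real.sin_pos_of_pos_of_lt_pi bet_pos bet_lt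
  have hσ1 := Real.sin_le_one bet
  have hG : Real.sin eta * S - Real.sin eta * (6 * (m + 1))
      ≤ ∑ j ∈ range N, G eta (r m / r j) := by
    have hsplit : ∀ f : ℕ → ℝ, ∑ j ∈ range N, f j
        = ∑ j ∈ range (m + 1), f j + ∑ j ∈ Ico (m + 1) N, f j := by
      intro f
      rw [Finset.sum_range_add_sum_Ico f (by omega)]
    rw [hS, hsplit, hsplit]
    have a1 : 0 ≤ ∑ j ∈ range (m + 1), G eta (r m / r j) :=
      Finset.sum_nonneg fun j _ => G_nonneg eta_pos eta_lt (div_pos (hr m) (hr j))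
    have a2 : ∑ j ∈ range (m + 1), r m / r j ≤ 3 * (m + 1) := by
      calc _ ≤ ∑ j ∈ range (m + 1), U ^ 2 * (1 / v (j + 1) ^ 2) :=
            Finset.sum_le_sum fun j hj => hq j (by have := Finset.mem_range.1 hj; omega)
        _ = U ^ 2 * ∑ j ∈ range (m + 1), 1 / v (j + 1) ^ 2 := by rw [Finset.mul_sum]
        _ ≤ U ^ 2 * (3 * U) := mul_le_mul_of_nonneg_left (sum_v2 (m + 1)) (by positivity)
        _ = 3 * (m + 1) := by rw [← hU3]; ring
    have a3 : ∑ j ∈ Ico (m + 1) N, (r m / r j) ^ 2 ≤ 3 * (m + 1) := by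
      calc _ ≤ ∑ j ∈ Ico (m + 1) N, U ^ 4 * (1 / v (j + 1) ^ 4) := by
            apply Finset.sum_le_sum
            intro j hj
            have h1 := hq j (Finset.mem_Ico.1 hj).2
            have h2 := pow_le_pow_left₀ (div_pos (hr m) (hr j)).le h1 2
            refine h2.trans (le_of_eq ?_)
            have := vp j
            field_simp
        _ = U ^ 4 * ∑ j ∈ Ico (m + 1) N, 1 / v (j + 1) ^ 4 := by rw [Finset.mul_sum]
        _ ≤ U ^ 4 * (3 * (1 / U)) := by
            apply mul_le_mul_of_nonneg_left _ (by positivity)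
            have := sum_v4 (Nat.le_add_left 1 m) (show m + 1 ≤ N by omega)
            have h3 : 0 < 1 / v N := by have := v_pos hN; positivity
            linarith
        _ = 3 * (m + 1) := by rw [← hU3]; field_simp
    have a4 : Real.sin eta * ∑ j ∈ Ico (m + 1) N, r m / r j
        - Real.sin eta * ∑ j ∈ Ico (m + 1) N, (r m / r j) ^ 2
        ≤ ∑ j ∈ Ico (m + 1) N, G eta (r m / r j) := by
      rw [Finset.mul_sum, Finset.mul_sum, ← Finset.sum_sub_distrib]
      apply Finset.sum_le_sum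
      intro j _
      have := G_lower eta_pos eta_lt (div_pos (hr m) (hr j))
      linarith
    have a5 := mul_le_mul_of_nonneg_left a2 hsη.le
    have a6 := mul_le_mul_of_nonneg_left a3 hsη.le
    rw [mul_add]
    linarith
  have hGb := G_upper bet_pos bet_lt (hr m) (by rw [cos_bet]; linarith [kap_le])
  have hM0 : 0 < M := by linarith
  have hMr : M * r m = B * r m + 2 * kap * S := by
    rw [hB, hS]
    have : ∑ j ∈ range N, r m / r j = (∑ j ∈ range N, 1 / r j) * r m := by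
      rw [Finset.sum_mul]; apply Finset.sum_congr rfl; intro j _; ring
    rw [this]; ring
  have hBr : B * r m ≤ U ^ 2 / 2 := by
    rw [hrm]
    have := mul_le_mul_of_nonneg_right hc (show 0 ≤ U ^ 2 by positivity)
    linarith
  have hk0 := kap_pos
  have hk1 := kap_le
  have hvN := one_le_v hN
  have hUN : U ≤ v N := v_mono (by omega)
  have hMr2 : M * r m ≤ 13 / 20 * (U ^ 2 * v N) := by
    have h1 : U ^ 2 ≤ U ^ 2 * v N := le_mul_of_one_le_right (by positivity) hvN
    have h2 : 2 * kap * S ≤ 2 * kap * (U ^ 2 * (3 * v N)) :=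
      mul_le_mul_of_nonneg_left hS1 (by positivity)
    have h3 : 0 < U ^ 2 * v N := by positivity
    have h4 : kap * (U ^ 2 * v N) ≤ 1 / 40 * (U ^ 2 * v N) := mul_le_mul_of_nonneg_right hk1 h3.le
    linarith
  have hMr3 : M * r m ^ 2 ≤ 169 / 400 * (m + 1) := by
    have h1 : (M * r m) ^ 2 ≤ (13 / 20 * (U ^ 2 * v N)) ^ 2 :=
      pow_le_pow_left₀ (mul_pos hM0 (hr m)).le hMr2 2
    have h2 : v N ^ 3 ≤ M := by rw [v_cube]; linarith
    have h3 : U ^ 4 * v N ^ 2 ≤ U ^ 3 * M := by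
      calc U ^ 4 * v N ^ 2 = U ^ 3 * (U * v N ^ 2) := by ring
        _ ≤ U ^ 3 * (v N * v N ^ 2) := by gcongr
        _ = U ^ 3 * v N ^ 3 := by ring
        _ ≤ U ^ 3 * M := by gcongr
    rw [← hU3]
    have h4 : M * (M * r m ^ 2) ≤ M * (169 / 400 * U ^ 3) := by linarith
    exact le_of_mul_le_mul_left h4 hM0
  have hU23 : U ^ 2 ≤ m + 1 := by rw [← hU3]; exact pow_le_pow_right₀ hU1 (by norm_num)
  have e := he m hm
  have h5 : M * G bet (r m) ≤ M * r m * Real.sin bet + M * r m ^ 2 := by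
    have := mul_le_mul_of_nonneg_left hGb hM0.le
    linarith
  have h6 : B * r m * Real.sin bet ≤ (m + 1) / 2 := by
    have hm0 : (0 : ℝ) ≤ m := Nat.cast_nonneg m
    rcases le_total (B * r m) 0 with h | h
    · have := mul_nonpos_of_nonpos_of_nonneg h hσ.le
      linarith
    · have := mul_le_of_le_one_right h hσ1
      linarith
  have h7 : Real.sin eta ≤ 1 / 20 := by
    rw [sin_eta]
    have := mul_le_of_le_one_right hk0.le hσ1
    linarith
  have hm0 : (0 : ℝ) ≤ m := Nat.cast_nonneg m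
  have h8 : Real.sin eta * (6 * (m + 1)) ≤ 3 / 10 * (m + 1) := by
    have := mul_le_mul_of_nonneg_right h7 (show (0 : ℝ) ≤ 6 * (m + 1) by positivity)
    linarith
  have h9 : M * r m * Real.sin bet = B * r m * Real.sin bet + Real.sin eta * S := by
    rw [hMr, sin_eta]; ring
  have hpi := Real.pi_gt_three
  have hb : bet = π / 2 + 1 / 40 := rfl
  have h10 : 3 * (m : ℝ) ≤ π * m := mul_le_mul_of_nonneg_right hpi.le hm0
  have h11 : π * ((m : ℝ) + 1) = π * m + π := by ring
  linarith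

end Pool.Agent.Lib.MP_3f6bc3_an
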