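import Mathlib

set_option autoImplicit false

namespace Pool.Agent.Lib.MP_3f6bc3_an

open Complex Real

/-- the argument of `1 + t e^{iθ}` -/
noncomputable def G (θ t : ℝ) : ℝ := Complex.arg (1 + (t : ℂ) * Complex.exp (θ * I))

lemma base_re (θ t : ℝ) : (1 + (t : ℂ) * Complex.exp (θ * I)).re = 1 + t * Real.cos θ := by
  simp [Complex.exp_ofReal_mul_I_re]

lemma base_im (θ t : ℝ) : (1 + (t : ℂ) * Complex.exp (θ * I)).im = t * Real.sin θ := by
  simp [Complex.exp_ofReal_mul_I_im]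

lemma base_im_pos {θ t : ℝ} (h0 : 0 < θ) (h1 : θ < π) (ht : 0 < t) :
    0 < (1 + (t : ℂ) * Complex.exp (θ * I)).im := by
  rw [base_im]; exact mul_pos ht (Real.sin_pos_of_pos_of_lt_pi h0 h1)

lemma base_ne_zero {θ t : ℝ} (h0 : 0 < θ) (h1 : θ < π) (ht : 0 < t) :
    (1 + (t : ℂ) * Complex.exp (θ * I)) ≠ 0 := by
  intro h
  have := base_im_pos h0 h1 ht
  rw [h] at this
  simp at this

lemma G_nonneg {θ t : ℝ} (h0 : 0 < θ) (h1 : θ < π) (ht : 0 < t) : 0 ≤ G θ t :=
  Complex.arg_nonneg_iff.2 (base_im_pos h0 h1 ht).le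

lemma G_lt_pi {θ t : ℝ} (h0 : 0 < θ) (h1 : θ < π) (ht : 0 < t) : G θ t < π :=
  Complex.arg_lt_pi_iff.2 (Or.inr (base_im_pos h0 h1 ht).ne')

lemma G_add_inv {θ t : ℝ} (h0 : 0 < θ) (h1 : θ < π) (ht : 0 < t) :
    G θ t + G θ t⁻¹ = θ := by
  have hti : 0 < t⁻¹ := inv_pos.2 ht
  have hc : -1 < Real.cos θ := by
    have := Real.cos_lt_cos_of_nonneg_of_le_pi h0.le le_rfl h1
    rwa [Real.cos_pi] at this
  have h2 : 2 ≤ t + t⁻¹ := by
    have : t * t⁻¹ = 1 := mul_inv_cancel₀ ht.ne'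
    nlinarith [sq_nonneg (t - 1), mul_pos ht hti]
  have hpos : 0 < 2 * Real.cos θ + t + t⁻¹ := by linarith
  have hprod : (1 + (t : ℂ) * Complex.exp (θ * I)) * (1 + ((t⁻¹ : ℝ) : ℂ) * Complex.exp (θ * I))
      = ((2 * Real.cos θ + t + t⁻¹ : ℝ) : ℂ) * Complex.exp (θ * I) := by
    have htc : (t : ℂ) ≠ 0 := by exact_mod_cast ht.ne'
    have e1 : Complex.exp (θ * I) * Complex.exp (-(θ * I)) = 1 := by
      rw [← Complex.exp_add]; simp
    have e2 : (2 * Complex.cos θ : ℂ) = Complex.exp (θ * I) + Complex.exp (-(θ * I)) := by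
      rw [Complex.two_cos]; congr 2; ring
    push_cast
    rw [e2]
    field_simp
    linear_combination (-(t : ℂ)) * e1
  have harg : Complex.arg (((2 * Real.cos θ + t + t⁻¹ : ℝ) : ℂ) * Complex.exp (θ * I)) = θ := by
    rw [Complex.arg_real_mul _ hpos, Complex.exp_mul_I,
      Complex.arg_cos_add_sin_mul_I ⟨by linarith [Real.pi_pos], h1.le⟩]
  have hang := Complex.arg_mul_coe_angle (base_ne_zero h0 h1 ht) (base_ne_zero h0 h1 hti)
  rw [hprod, harg, ← Real.Angle.coe_add, Real.Angle.angle_eq_iff_two_pi_dvd_sub] at hang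
  obtain ⟨k, hk⟩ := hang
  have a1 := G_nonneg h0 h1 ht
  have a2 := G_nonneg h0 h1 hti
  have a3 := G_lt_pi h0 h1 ht
  have a4 := G_lt_pi h0 h1 hti
  unfold G at *
  have hpi := Real.pi_pos
  have k1 : (k : ℝ) < 1 := by
    by_contra h
    push Not at h
    nlinarith
  have k2 : (-1 : ℝ) < k := by
    by_contra h
    push Not at h
    nlinarith
  have k1' : k < 1 := by exact_mod_cast k1
  have k2' : -1 < k := by exact_mod_cast k2
  have : k = 0 := by omega
  subst this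
  rw [Int.cast_zero, mul_zero] at hk
  linarith

lemma G_le {θ t : ℝ} (h0 : 0 < θ) (h1 : θ < π) (ht : 0 < t) : G θ t ≤ θ := by
  have := G_add_inv h0 h1 ht
  have := G_nonneg h0 h1 (inv_pos.2 ht)
  linarith

lemma G_continuous {θ : ℝ} (h0 : 0 < θ) (h1 : θ < π) :
    Continuous (fun s : ℝ => G θ (Real.exp s)) := by
  rw [continuous_iff_continuousAt]
  intro s
  unfold G
  have hc : Continuous (fun s : ℝ => (1 + ((Real.exp s : ℝ) : ℂ) * Complex.exp (θ * I))) := by
    fun_prop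
  exact ContinuousAt.comp (g := Complex.arg)
    (Complex.continuousAt_arg (Or.inr (base_im_pos h0 h1 (Real.exp_pos s)).ne')) hc.continuousAt

lemma G_lower {θ t : ℝ} (h0 : 0 < θ) (h1 : θ < π) (ht : 0 < t) :
    t * Real.sin θ - t ^ 2 * Real.sin θ ≤ G θ t := by
  have hs := Real.sin_pos_of_pos_of_lt_pi h0 h1
  have a := Real.sin_le (G_nonneg h0 h1 ht)
  have b : Real.sin (G θ t) = t * Real.sin θ / ‖1 + (t : ℂ) * Complex.exp (θ * I)‖ := by
    unfold G; rw [Complex.sin_arg, base_im]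
  have hn : ‖1 + (t : ℂ) * Complex.exp (θ * I)‖ ≤ 1 + t := by
    refine (norm_add_le _ _).trans ?_
    simp [Complex.norm_exp_ofReal_mul_I, abs_of_pos ht]
  have hn0 : 0 < ‖1 + (t : ℂ) * Complex.exp (θ * I)‖ := norm_pos_iff.2 (base_ne_zero h0 h1 ht)
  have c : t * Real.sin θ / (1 + t) ≤ t * Real.sin θ / ‖1 + (t : ℂ) * Complex.exp (θ * I)‖ :=
    div_le_div_of_nonneg_left (by positivity) hn0 hn
  have d : t * Real.sin θ - t ^ 2 * Real.sin θ ≤ t * Real.sin θ / (1 + t) := by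
    rw [le_div_iff₀ (by positivity)]
    have : 0 ≤ t ^ 3 * Real.sin θ := by positivity
    nlinarith
  linarith

lemma G_upper {θ t : ℝ} (h0 : 0 < θ) (h1 : θ < π) (ht : 0 < t) (hc : -(1 / 4) ≤ Real.cos θ) :
    G θ t ≤ t * Real.sin θ + t ^ 2 := by
  have hs := Real.sin_pos_of_pos_of_lt_pi h0 h1
  have hs1 := Real.sin_le_one θ
  rcases le_or_gt t 2 with h | h
  · have hre : 1 / 2 ≤ 1 + t * Real.cos θ := by nlinarith
    have hlt : G θ t < π / 2 := by
      have : |G θ t| < π / 2 := Complex.abs_arg_lt_pi_div_two_iff.2 (Or.inl (by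
        rw [base_re]; linarith))
      exact (abs_lt.1 this).2
    have a := Real.le_tan (G_nonneg h0 h1 ht) hlt
    have b : Real.tan (G θ t) = t * Real.sin θ / (1 + t * Real.cos θ) := by
      unfold G; rw [Complex.tan_arg, base_im, base_re]
    have c : t * Real.sin θ / (1 + t * Real.cos θ) ≤ t * Real.sin θ + t ^ 2 := by
      rw [div_le_iff₀ (by linarith)]
      have h3 : 0 ≤ t ^ 2 * (1 / 2 + Real.sin θ * Real.cos θ) := by
        have : 0 ≤ 1 / 2 + Real.sin θ * Real.cos θ := by nlinarith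
        positivity
      have h4 : t ^ 2 * (1 / 2) ≤ t ^ 2 * (1 + t * Real.cos θ) := by
        apply mul_le_mul_of_nonneg_left hre; positivity
      nlinarith
    linarith
  · have := G_lt_pi h0 h1 ht
    have := Real.pi_lt_four
    nlinarith [mul_pos ht hs]

lemma exp_G (θ t : ℝ) : (1 + (t : ℂ) * Complex.exp (θ * I))
    = (‖1 + (t : ℂ) * Complex.exp (θ * I)‖ : ℝ) * Complex.exp (G θ t * I) := by
  unfold G
  exact (Complex.norm_mul_exp_arg_mul_I _).symm

end Pool.Agent.Lib.MP_3f6bc3_an
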