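import Mathlib

set_option autoImplicit false

namespace Pool.Agent.Lib.MP_3f6bc3_an

open Finset

lemma sum_abs_sub_le {N : ℕ} (x : Fin N → ℝ) :
    ∑ k, ∑ j, |x k - x j| ≤ 2 * ((N : ℝ) - 1) * ∑ k, |x k| := by
  have h : ∀ k, ∑ j, |x k - x j| ≤ ((N : ℝ) - 2) * |x k| + ∑ j, |x j| := by
    intro k
    have h1 : ∑ j, |x k - x j| ≤ ∑ j, (|x k| + |x j| - if j = k then 2 * |x k| else 0) := by
      apply Finset.sum_le_sum
      intro j _
      split_ifs with hj
      · subst hj; simp; linarith
      · simpa using abs_sub (x k) (x j)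
    refine h1.trans (le_of_eq ?_)
    rw [Finset.sum_sub_distrib, Finset.sum_add_distrib]
    simp
    ring
  refine (Finset.sum_le_sum fun k _ => h k).trans (le_of_eq ?_)
  rw [Finset.sum_add_distrib, ← Finset.mul_sum]
  simp
  ring

/-- Existence of an increasing solution of a Bethe-type system, by minimising an energy. -/
theorem exists_bethe {N : ℕ} (W V a b : ℝ → ℝ) (M p q C D : ℝ) (d : Fin N → ℝ)
    (hW : ∀ s, HasDerivAt W (b s) s) (hV : ∀ s, HasDerivAt V (a s) s)
    (hodd : ∀ s, a (-s) = -a s) (hM : 0 ≤ M) (hq : 0 ≤ q)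
    (hWl : ∀ s, p * |s| - C ≤ W s) (hVu : ∀ s, V s ≤ q * |s|)
    (hd : StrictMono d) (hD : ∀ k, |d k| ≤ D)
    (hgap : 0 < M * p - D - q * ((N : ℝ) - 1)) :
    ∃ x : Fin N → ℝ, StrictMono x ∧ ∀ k, M * b (x k) - ∑ j, a (x k - x j) = d k := by
  classical
  have cW : Continuous W := continuous_iff_continuousAt.2 fun s => (hW s).continuousAt
  have cV : Continuous V := continuous_iff_continuousAt.2 fun s => (hV s).continuousAt
  set E : (Fin N → ℝ) → ℝ := fun x =>
    ∑ k, (M * W (x k) - d k * x k) - (1 / 2) * ∑ k, ∑ j, V (x k - x j) with hE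
  have cE : Continuous E := by
    rw [hE]; fun_prop
  set g := M * p - D - q * ((N : ℝ) - 1) with hg
  have low : ∀ x, g * ∑ k, |x k| - N * (M * C) ≤ E x := by
    intro x
    have h1 : ∑ k, ((M * p - D) * |x k| - M * C) ≤ ∑ k, (M * W (x k) - d k * x k) := by
      apply Finset.sum_le_sum
      intro k _
      have e1 := mul_le_mul_of_nonneg_left (hWl (x k)) hM
      have e2 : d k * x k ≤ D * |x k| := by
        calc d k * x k ≤ |d k * x k| := le_abs_self _
          _ = |d k| * |x k| := abs_mul _ _
          _ ≤ D * |x k| := mul_le_mul_of_nonneg_right (hD k) (abs_nonneg _)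
      nlinarith
    have h2 : ∑ k, ∑ j, V (x k - x j) ≤ q * ∑ k, ∑ j, |x k - x j| := by
      rw [Finset.mul_sum]
      apply Finset.sum_le_sum
      intro k _
      rw [Finset.mul_sum]
      exact Finset.sum_le_sum fun j _ => hVu _
    have h3 := mul_le_mul_of_nonneg_left (sum_abs_sub_le x) hq
    rw [Finset.sum_sub_distrib, ← Finset.mul_sum] at h1
    simp only [Finset.sum_const, Finset.card_univ, Fintype.card_fin, nsmul_eq_mul] at h1
    simp only [hE, hg]
    nlinarith
  have hb : Bornology.IsBounded {x | E x ≤ E 0} := by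
    refine (Metric.isBounded_closedBall (x := (0 : Fin N → ℝ))
      (r := max ((E 0 + N * (M * C)) / g) 0)).subset ?_
    intro x hx
    simp only [Set.mem_ofPred_eq] at hx
    rw [mem_closedBall_zero_iff, pi_norm_le_iff_of_nonneg (le_max_right _ _)]
    intro k
    refine le_trans ?_ (le_max_left _ _)
    rw [le_div_iff₀ hgap, Real.norm_eq_abs]
    have : |x k| ≤ ∑ k, |x k| :=
      Finset.single_le_sum (f := fun k => |x k|) (fun i _ => abs_nonneg _) (Finset.mem_univ k)
    have := low x
    nlinarith
  obtain ⟨x, hx⟩ := cE.exists_forall_le_of_isBounded 0 hb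
  have eqn : ∀ k, M * b (x k) - ∑ j, a (x k - x j) = d k := by
    intro k
    set e : Fin N → ℝ := fun i => if i = k then 1 else 0 with he
    have hmin : IsLocalMin (fun t : ℝ => E (fun i => x i + t * e i)) 0 := by
      apply Filter.Eventually.of_forall
      intro t
      simpa using hx _
    have hder : HasDerivAt (fun t : ℝ => E (fun i => x i + t * e i))
        (∑ i, (M * (b (x i) * e i) - d i * e i)
          - (1 / 2) * ∑ i, ∑ j, a (x i - x j) * (e i - e j)) 0 := by
      simp only [hE]
      have l1 : ∀ i, HasDerivAt (fun t : ℝ => x i + t * e i) (e i) 0 := by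
        intro i
        simpa using ((hasDerivAt_id (0 : ℝ)).mul_const (e i)).const_add (x i)
      apply HasDerivAt.sub
      · apply HasDerivAt.fun_sum
        intro i _
        apply HasDerivAt.sub
        · apply HasDerivAt.const_mul
          have := HasDerivAt.comp (0 : ℝ) (h₂ := W) (h := fun t : ℝ => x i + t * e i)
            (by simpa using hW (x i)) (l1 i)
          exact this
        · exact (l1 i).const_mul _
      · apply HasDerivAt.const_mul
        apply HasDerivAt.fun_sum
        intro i _
        apply HasDerivAt.fun_sum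
        intro j _
        have := HasDerivAt.comp (0 : ℝ) (h₂ := V)
          (h := fun t : ℝ => (x i + t * e i) - (x j + t * e j))
          (by simpa using hV (x i - x j)) ((l1 i).sub (l1 j))
        exact this
    have h0 := hmin.hasDerivAt_eq_zero hder
    have s1 : ∑ i, (M * (b (x i) * e i) - d i * e i) = M * b (x k) - d k := by
      rw [Finset.sum_eq_single k]
      · simp [he]
      · intro i _ hi; simp [he, hi]
      · simp
    have s2 : ∑ i, ∑ j, a (x i - x j) * (e i - e j) = 2 * ∑ j, a (x k - x j) := by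
      simp only [mul_sub, Finset.sum_sub_distrib]
      have t1 : ∑ i, ∑ j, a (x i - x j) * e i = ∑ j, a (x k - x j) := by
        rw [Finset.sum_eq_single k]
        · simp [he]
        · intro i _ hi; simp [he, hi]
        · simp
      have t2 : ∑ i, ∑ j, a (x i - x j) * e j = -∑ j, a (x k - x j) := by
        rw [← Finset.sum_neg_distrib]
        apply Finset.sum_congr rfl
        intro i _
        rw [← hodd, neg_sub]
        simp [he]
      rw [t1, t2]; ring
    rw [s1, s2] at h0
    linarith
  refine ⟨x, ?_, eqn⟩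
  intro j k hjk
  have hne : j ≠ k := hjk.ne
  have hsw := hx (fun i => x (Equiv.swap j k i))
  have u1 : ∑ i, M * W (x (Equiv.swap j k i)) = ∑ i, M * W (x i) :=
    Equiv.sum_comp (Equiv.swap j k) (fun i => M * W (x i))
  have u2 : ∑ i, ∑ l, V (x (Equiv.swap j k i) - x (Equiv.swap j k l)) = ∑ i, ∑ l, V (x i - x l) := by
    rw [← Equiv.sum_comp (Equiv.swap j k) (fun i => ∑ l, V (x i - x l))]
    apply Finset.sum_congr rfl
    intro i _
    exact Equiv.sum_comp (Equiv.swap j k) (fun l => V (x (Equiv.swap j k i) - x l))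
  have u3 : ∑ i, d i * x (Equiv.swap j k i) - ∑ i, d i * x i = -((d k - d j) * (x k - x j)) := by
    rw [← Finset.sum_sub_distrib, Finset.sum_eq_add j k hne]
    · simp; ring
    · intro c _ hc
      rw [Equiv.swap_apply_of_ne_of_ne hc.1 hc.2]; simp
    · simp
    · simp
  simp only [hE, Finset.sum_sub_distrib] at hsw
  rw [u1, u2] at hsw
  have hdd : 0 < d k - d j := sub_pos.2 (hd hjk)
  have hle : 0 ≤ (d k - d j) * (x k - x j) := by linarith
  have hle' : 0 ≤ x k - x j := by
    by_contra h
    push Not at h
    nlinarith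
  rcases hle'.lt_or_eq with h | h
  · linarith
  · exfalso
    have hxx : x k = x j := by linarith
    have e1 := eqn k
    have e2 := eqn j
    rw [hxx] at e1
    linarith

end Pool.Agent.Lib.MP_3f6bc3_an
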