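import Pool.Agent.Lib.MP_3f6bc3_an.Arg
import Pool.Agent.Lib.MP_3f6bc3_an.Energy

set_option autoImplicit false

namespace Pool.Agent.Lib.MP_3f6bc3_an

open Finset Real

noncomputable def del : ℝ := 1 / 40
noncomputable def bet : ℝ := π / 2 + del
noncomputable def eta : ℝ := 2 * del
noncomputable def kap : ℝ := Real.sin del

lemma del_pos : 0 < del := by unfold del; norm_num
lemma bet_pos : 0 < bet := by unfold bet del; linarith [Real.pi_pos]
lemma bet_lt : bet < π := by unfold bet del; linarith [Real.pi_gt_three]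
lemma eta_pos : 0 < eta := by unfold eta del; norm_num
lemma eta_lt : eta < π := by unfold eta del; linarith [Real.pi_gt_three]
lemma kap_pos : 0 < kap :=
  Real.sin_pos_of_pos_of_lt_pi del_pos (by unfold del; linarith [Real.pi_gt_three])
lemma kap_le : kap ≤ 1 / 40 := Real.sin_le del_pos.le
lemma cos_bet : Real.cos bet = -kap := by
  unfold bet kap; rw [add_comm, Real.cos_add_pi_div_two]
lemma sin_eta : Real.sin eta = 2 * kap * Real.sin bet := by
  unfold eta kap bet
  rw [Real.sin_two_mul, add_comm (π / 2), Real.sin_add_pi_div_two]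

lemma G_odd {θ : ℝ} (h0 : 0 < θ) (h1 : θ < π) (s : ℝ) :
    G θ (Real.exp (-s)) - θ / 2 = -(G θ (Real.exp s) - θ / 2) := by
  have := G_add_inv h0 h1 (Real.exp_pos s)
  rw [Real.exp_neg]
  linarith

lemma G_abs {θ : ℝ} (h0 : 0 < θ) (h1 : θ < π) (s : ℝ) :
    |G θ (Real.exp s) - θ / 2| ≤ θ / 2 := by
  have := G_nonneg h0 h1 (Real.exp_pos s)
  have := G_le h0 h1 (Real.exp_pos s)
  rw [abs_le]; constructor <;> linarith

lemma prim_deriv {f : ℝ → ℝ} (hf : Continuous f) (s : ℝ) :
    HasDerivAt (fun u => ∫ x in (0 : ℝ)..u, f x) (f s) s :=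
  intervalIntegral.integral_hasDerivAt_right (hf.intervalIntegrable _ _)
    (hf.stronglyMeasurableAtFilter _ _) hf.continuousAt

lemma W_lower (s : ℝ) :
    bet / 2 * |s| - 2 ≤ ∫ x in (0 : ℝ)..s, (G bet (Real.exp x) - bet / 2) := by
  have hc : Continuous (fun x : ℝ => G bet (Real.exp x) - bet / 2) :=
    (G_continuous bet_pos bet_lt).sub continuous_const
  have key : ∀ s : ℝ, 0 ≤ s →
      bet / 2 * s - 2 ≤ ∫ x in (0 : ℝ)..s, (G bet (Real.exp x) - bet / 2) := by
    intro s hs
    have h1 : ∫ x in (0 : ℝ)..s, (bet / 2 - 2 * Real.exp (-x))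
        ≤ ∫ x in (0 : ℝ)..s, (G bet (Real.exp x) - bet / 2) := by
      apply intervalIntegral.integral_mono_on hs
      · exact (by fun_prop : Continuous fun x : ℝ => bet / 2 - 2 * Real.exp (-x)).intervalIntegrable _ _
      · exact hc.intervalIntegrable _ _
      · intro x hx
        have e1 := G_odd bet_pos bet_lt x
        have e2 := G_upper bet_pos bet_lt (Real.exp_pos (-x))
          (by rw [cos_bet]; linarith [kap_le])
        have e3 : Real.exp (-x) ≤ 1 := Real.exp_le_one_iff.2 (by linarith [hx.1])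
        have e4 := Real.exp_pos (-x)
        have e5 := Real.sin_le_one bet
        nlinarith
    have h2 : ∫ x in (0 : ℝ)..s, (bet / 2 - 2 * Real.exp (-x))
        = (bet / 2 * s + 2 * Real.exp (-s)) - (bet / 2 * 0 + 2 * Real.exp (-0)) := by
      apply intervalIntegral.integral_eq_sub_of_hasDerivAt
        (f := fun x => bet / 2 * x + 2 * Real.exp (-x))
      · intro x _
        have := ((hasDerivAt_id x).const_mul (bet / 2)).add
          (((hasDerivAt_id x).neg.exp).const_mul 2)
        have e : bet / 2 - 2 * Real.exp (-x)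
            = bet / 2 * 1 + 2 * (Real.exp ((-id : ℝ → ℝ) x) * -1) := by simp; ring
        rw [e]
        exact this
      · exact (by fun_prop : Continuous fun x : ℝ => bet / 2 - 2 * Real.exp (-x)).intervalIntegrable _ _
    have := Real.exp_pos (-s)
    rw [h2] at h1
    simp at h1
    linarith
  rcases le_total 0 s with h | h
  · rw [abs_of_nonneg h]; exact key s h
  · have h3 := key (-s) (by linarith)
    rw [abs_of_nonpos h]
    have h4 : ∫ x in (0 : ℝ)..s, (G bet (Real.exp x) - bet / 2)
        = ∫ x in (0 : ℝ)..(-s), (G bet (Real.exp x) - bet / 2) := by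
      have := intervalIntegral.integral_comp_neg (a := 0) (b := -s)
        (fun x => G bet (Real.exp x) - bet / 2)
      simp only [neg_neg, neg_zero] at this
      rw [intervalIntegral.integral_symm, ← this, ← intervalIntegral.integral_neg]
      congr 1
      ext x
      rw [G_odd bet_pos bet_lt x, neg_neg]
    rw [h4]; exact h3

lemma V_upper (s : ℝ) :
    ∫ x in (0 : ℝ)..s, (G eta (Real.exp x) - eta / 2) ≤ eta / 2 * |s| := by
  have := intervalIntegral.norm_integral_le_of_norm_le_const (a := 0) (b := s) (C := eta / 2)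
    (f := fun x => G eta (Real.exp x) - eta / 2) (fun x _ => G_abs eta_pos eta_lt x)
  rw [sub_zero] at this
  exact (le_abs_self _).trans this

theorem bethe_sol (N : ℕ) (hN : 1 ≤ N) :
    ∃ r : ℕ → ℝ, (∀ j, 0 < r j) ∧ (∀ j k, j < k → k < N → r j < r k) ∧
      ∀ k < N, (2 * (N : ℝ) - 1) * G bet (r k) - ∑ j ∈ range N, G eta (r k / r j)
        = π * (k + 1) - bet := by
  have hN' : (1 : ℝ) ≤ N := by exact_mod_cast hN
  have hpi := Real.pi_pos
  obtain ⟨x, hx, he⟩ := exists_bethe (N := N)
    (fun u => ∫ x in (0 : ℝ)..u, (G bet (Real.exp x) - bet / 2))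
    (fun u => ∫ x in (0 : ℝ)..u, (G eta (Real.exp x) - eta / 2))
    (fun x => G eta (Real.exp x) - eta / 2) (fun x => G bet (Real.exp x) - bet / 2)
    (2 * (N : ℝ) - 1) (bet / 2) (eta / 2) 2 (π * N / 2 - bet / 2)
    (fun k => π * ((k : ℕ) + 1) - N * π / 2 - bet / 2)
    (prim_deriv ((G_continuous bet_pos bet_lt).sub continuous_const))
    (prim_deriv ((G_continuous eta_pos eta_lt).sub continuous_const))
    (G_odd eta_pos eta_lt) (by linarith) (by linarith [eta_pos]) W_lower V_upper
    (by
      intro j k hjk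
      have : ((j : ℕ) : ℝ) < (k : ℕ) := by exact_mod_cast hjk
      simp only
      nlinarith)
    (by
      intro k
      have h1 : ((k : ℕ) : ℝ) + 1 ≤ N := by exact_mod_cast k.2
      have h2 : (0 : ℝ) ≤ (k : ℕ) := Nat.cast_nonneg _
      have := bet_lt
      rw [abs_le]; constructor <;> nlinarith)
    (by unfold eta bet; have := del_pos; nlinarith)
  refine ⟨fun j => if h : j < N then Real.exp (x ⟨j, h⟩) else 1, ?_, ?_, ?_⟩
  · intro j; simp only; split_ifs
    · exact Real.exp_pos _
    · exact one_pos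
  · intro j k hjk hk
    simp only [dif_pos hk, dif_pos (hjk.trans hk)]
    exact Real.exp_lt_exp.2 (hx (by exact hjk))
  · intro k hk
    have := he ⟨k, hk⟩
    rw [Finset.sum_range]
    simp only [dif_pos hk, Fin.is_lt, dif_pos, Fin.eta, ← Real.exp_sub]
    simp only [Finset.sum_sub_distrib, Finset.sum_const, Finset.card_univ, Fintype.card_fin,
      nsmul_eq_mul] at this
    unfold eta bet at *
    linarith

end Pool.Agent.Lib.MP_3f6bc3_an
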