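import Pool.Agent.Lib.MP_3f6bc3_an.PF

set_option autoImplicit false

namespace Pool.Agent.Lib.MP_3f6bc3_an

open Finset Real Complex ComplexConjugate

lemma norm_one_sub_le (w : ℂ) : ‖1 - w‖ ≤ Real.exp (-w.re + ‖w‖ ^ 2 / 2) := by
  have h1 : ‖1 - w‖ ^ 2 = 1 + (-2 * w.re + ‖w‖ ^ 2) := by
    rw [Complex.sq_norm, Complex.sq_norm, Complex.normSq_apply, Complex.normSq_apply]
    simp; ring
  have h2 := Real.add_one_le_exp (-2 * w.re + ‖w‖ ^ 2)
  have h3 : Real.exp (-w.re + ‖w‖ ^ 2 / 2) ^ 2 = Real.exp (-2 * w.re + ‖w‖ ^ 2) := by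
    rw [← Real.exp_nat_mul]; congr 1; push_cast; ring
  apply le_of_sq_le_sq' (Real.exp_pos _).le
  rw [h1, h3]; linarith
where
  le_of_sq_le_sq' {a b : ℝ} (hb : 0 ≤ b) (h : a ^ 2 ≤ b ^ 2) : a ≤ b :=
    (abs_le_of_sq_le_sq' h hb).2

lemma exp_le_norm_one_add {w : ℂ} (hw : ‖w‖ ≤ 1 / 2) :
    Real.exp (w.re - ‖w‖ ^ 2) ≤ ‖1 + w‖ := by
  have h1 := Complex.norm_log_one_add_sub_self_le (z := w) (by linarith)
  have h0 : 0 < ‖1 + w‖ := by
    have := norm_sub_norm_le (1 : ℂ) (-w)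
    simp only [norm_one, norm_neg, sub_neg_eq_add] at this
    linarith
  have h2 : (1 - ‖w‖)⁻¹ ≤ 2 := by
    rw [inv_le_comm₀ (by linarith) (by norm_num)]; linarith
  have h3 : ‖w‖ ^ 2 * (1 - ‖w‖)⁻¹ / 2 ≤ ‖w‖ ^ 2 := by
    have := mul_le_mul_of_nonneg_left h2 (sq_nonneg ‖w‖)
    linarith
  have h4 := (abs_le.1 ((Complex.abs_re_le_norm _).trans (h1.trans h3))).1
  rw [Complex.sub_re, Complex.log_re] at h4
  rw [← Real.le_log_iff_exp_le h0]
  linarith

lemma norm_Q_le (t : ℂ) : ‖Q t‖ ≤ Real.exp (2 * kap * t.re + ‖t‖ ^ 2) := by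
  rw [Q_eq, norm_mul]
  refine (mul_le_mul (norm_one_sub_le _) (norm_one_sub_le _) (norm_nonneg _)
    (Real.exp_pos _).le).trans (le_of_eq ?_)
  rw [← Real.exp_add]
  congr 1
  simp [om_norm, om_re]
  ring

lemma Q_real (t : ℝ) : Q (t : ℂ) = ((1 + 2 * kap * t + t ^ 2 : ℝ) : ℂ) := by
  unfold Q; push_cast; ring

lemma Q_neg_lower {t : ℝ} (ht : 0 ≤ t) : Real.exp (-(2 * kap * t)) ≤ 1 + 2 * kap * (-t) + (-t) ^ 2 := by
  have hk := kap_pos
  have hk1 := kap_le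
  set y := 2 * kap * t with hy
  have hy0 : 0 ≤ y := by positivity
  have h1 := Real.quadratic_le_exp_of_nonneg hy0
  have h2 : Real.exp (-y) ≤ 1 - y + y ^ 2 / 2 := by
    rw [Real.exp_neg, inv_le_iff_one_le_mul₀ (Real.exp_pos _)]
    have h3 : 0 ≤ 1 - y + y ^ 2 / 2 := by nlinarith [sq_nonneg (y - 1)]
    have h4 := mul_le_mul_of_nonneg_left h1 h3
    nlinarith [sq_nonneg (y ^ 2)]
  have h3 : y ^ 2 / 2 ≤ t ^ 2 := by
    have : y ^ 2 / 2 = (2 * kap ^ 2) * t ^ 2 := by rw [hy]; ring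
    rw [this]
    apply mul_le_of_le_one_left (sq_nonneg t)
    nlinarith
  nlinarith

section
variable (N M : ℕ) (s : ℕ → ℝ) (ρ : ℝ)

lemma num_lower (hρ : 0 < ρ) (z : ℂ) (hz : ρ * ‖z‖ ≤ 1 / 2) :
    Real.exp (M * ρ * z.re - M * ρ ^ 2 * ‖z‖ ^ 2) ≤ ‖1 + ρ * z‖ ^ M := by
  have hn : ‖(ρ : ℂ) * z‖ = ρ * ‖z‖ := by simp [abs_of_pos hρ]
  have h1 := exp_le_norm_one_add (w := ρ * z) (by rwa [hn])
  refine le_trans (le_of_eq ?_) (pow_le_pow_left₀ (Real.exp_pos _).le h1 M)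
  rw [← Real.exp_nat_mul, hn]
  congr 1
  simp; ring

lemma f_lower (hρ : 0 < ρ) (hB : M * ρ = 1 + 2 * kap * ∑ j ∈ range N, s j)
    (h1 : M * ρ ^ 2 ≤ 4) (h2 : ∑ j ∈ range N, s j ^ 2 ≤ 16) (z : ℂ) (hz : ρ * ‖z‖ ≤ 1 / 2)
    (hQ : ∀ j < N, Q (z * s j) ≠ 0) :
    Real.exp (-‖z‖ - 20 * ‖z‖ ^ 2) ≤ ‖(1 + ρ * z) ^ M / ∏ j ∈ range N, Q (z * s j)‖ := by
  rw [norm_div, norm_pow, norm_prod, le_div_iff₀
    (Finset.prod_pos fun j hj => norm_pos_iff.2 (hQ j (Finset.mem_range.1 hj)))]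
  refine le_trans ?_ (num_lower M ρ hρ z hz)
  have a1 : ∏ j ∈ range N, ‖Q (z * s j)‖
      ≤ Real.exp (2 * kap * z.re * ∑ j ∈ range N, s j + ‖z‖ ^ 2 * ∑ j ∈ range N, s j ^ 2) := by
    rw [Finset.mul_sum, Finset.mul_sum, ← Finset.sum_add_distrib, Real.exp_sum]
    apply Finset.prod_le_prod (fun _ _ => norm_nonneg _)
    intro j _
    refine (norm_Q_le _).trans (le_of_eq ?_)
    congr 1
    simp [mul_pow]; ring
  refine (mul_le_mul_of_nonneg_left a1 (Real.exp_pos _).le).trans ?_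
  rw [← Real.exp_add, Real.exp_le_exp, hB]
  have b1 := (abs_le.1 (Complex.abs_re_le_norm z)).1
  have b2 := mul_le_mul_of_nonneg_left h2 (sq_nonneg ‖z‖)
  have b3 := mul_le_mul_of_nonneg_right h1 (sq_nonneg ‖z‖)
  linarith

lemma f_neg (hs : ∀ j < N, 0 ≤ s j) (hB : M * ρ = 1 + 2 * kap * ∑ j ∈ range N, s j)
    (x : ℝ) (hx : 0 ≤ x) (hz : ρ * x ≤ 1 / 2) :
    ∃ y : ℝ, 0 ≤ y ∧ y ≤ Real.exp (-x) ∧
      (1 + ρ * ((-x : ℝ) : ℂ)) ^ M / ∏ j ∈ range N, Q (((-x : ℝ) : ℂ) * s j) = y := by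
  have hl : ∀ j ∈ range N, Real.exp (-(2 * kap * (x * s j)))
      ≤ 1 + 2 * kap * (-(x * s j)) + (-(x * s j)) ^ 2 :=
    fun j hj => Q_neg_lower (mul_nonneg hx (hs j (Finset.mem_range.1 hj)))
  have hp : Real.exp (-(2 * kap * x * ∑ j ∈ range N, s j))
      ≤ ∏ j ∈ range N, (1 + 2 * kap * (-(x * s j)) + (-(x * s j)) ^ 2) := by
    rw [Finset.mul_sum, ← Finset.sum_neg_distrib, Real.exp_sum]
    apply Finset.prod_le_prod (fun _ _ => (Real.exp_pos _).le)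
    intro j hj
    refine le_trans (le_of_eq ?_) (hl j hj)
    congr 1; ring
  have hp0 := lt_of_lt_of_le (Real.exp_pos _) hp
  refine ⟨(1 - ρ * x) ^ M / ∏ j ∈ range N, (1 + 2 * kap * (-(x * s j)) + (-(x * s j)) ^ 2),
    div_nonneg (pow_nonneg (by linarith) _) hp0.le, ?_, ?_⟩
  · rw [div_le_iff₀ hp0]
    refine le_trans ?_ (mul_le_mul_of_nonneg_left hp (Real.exp_pos _).le)
    have h1 : 1 - ρ * x ≤ Real.exp (-(ρ * x)) := by
      have := Real.add_one_le_exp (-(ρ * x)); linarith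
    refine (pow_le_pow_left₀ (by linarith) h1 M).trans (le_of_eq ?_)
    rw [← Real.exp_nat_mul, ← Real.exp_add]
    congr 1
    linear_combination (-x) * hB
  · unfold Q
    push_cast
    congr 1
    · ring
    · apply Finset.prod_congr rfl
      intro j _; ring

lemma mass_lower (hρ : 0 < ρ) (hs : ∀ j < N, 0 < s j) (hs2 : ∀ j < N, s j ≤ 2)
    (hanti : ∀ i j, i < j → j < N → s j < s i)
    (hB : M * ρ = 1 + 2 * kap * ∑ j ∈ range N, s j)
    (h1 : M * ρ ^ 2 ≤ 4) (h2 : ∑ j ∈ range N, s j ^ 2 ≤ 16) (k i : ℕ) (hk : k < N) (hi : i < N)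
    (hik : i ≠ k) (hz : ρ * (s k)⁻¹ ≤ 1 / 2) :
    Real.exp (-5 * (s k)⁻¹ - 20 * (s k)⁻¹ ^ 2) ≤ mass N M s ρ k * |1 - s i / s k| := by
  classical
  have hsk := hs k hk
  have hu : 0 < (s k)⁻¹ := inv_pos.2 hsk
  set z : ℂ := ((s k)⁻¹ : ℝ) * om with hzdef
  have hzn : ‖z‖ = (s k)⁻¹ := by simp [hzdef, om_norm, abs_of_pos hsk]
  have hnum := num_lower M ρ hρ z (by rwa [hzn])
  have e0 : 1 + ((ρ / s k : ℝ) : ℂ) * om = 1 + ρ * z := by rw [hzdef]; push_cast; ring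
  have e1 : ∀ j, |1 - s j / s k| = ‖1 - z * s j * conj om‖ := by
    intro j
    have : z * s j * conj om = ((s j / s k : ℝ) : ℂ) := by
      rw [hzdef]; push_cast
      linear_combination ((s k : ℂ)⁻¹ * s j) * om_mul_conj
    rw [this, ← Real.norm_eq_abs, ← Complex.norm_real]; push_cast; rfl
  have e2 : ∀ j, 1 + ((s j / s k : ℝ) : ℂ) * Complex.exp (eta * I) = 1 - z * s j * om := by
    intro j
    rw [hzdef]; push_cast
    linear_combination ((s k : ℂ)⁻¹ * s j) * om_sq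
  have hmem : i ∈ (range N).erase k := Finset.mem_erase.2 ⟨hik, Finset.mem_range.2 hi⟩
  have hne : ∀ j ∈ (range N).erase k, 0 < |1 - s j / s k| := by
    intro j hj
    have hjN := Finset.mem_range.1 (Finset.mem_of_mem_erase hj)
    have hjk := Finset.ne_of_mem_erase hj
    rw [abs_pos, sub_ne_zero, ne_comm, Ne, div_eq_one_iff_eq hsk.ne']
    rcases lt_or_gt_of_ne hjk with c | c
    · exact (hanti j k c hk).ne'
    · exact (hanti k j c hjN).ne
  have p1 : 0 < ∏ j ∈ ((range N).erase k).erase i, |1 - s j / s k| :=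
    Finset.prod_pos fun j hj => hne j (Finset.mem_of_mem_erase hj)
  have p2 : 0 < ∏ j ∈ range N, ‖1 + ((s j / s k : ℝ) : ℂ) * Complex.exp (eta * I)‖ :=
    Finset.prod_pos fun j hj => norm_pos_iff.2
      (base_ne_zero eta_pos eta_lt (div_pos (hs j (Finset.mem_range.1 hj)) hsk))
  have p3 := hne i hmem
  have e3 : mass N M s ρ k * |1 - s i / s k| = ‖1 + ρ * z‖ ^ M /
      ((∏ j ∈ ((range N).erase k).erase i, |1 - s j / s k|) *
        ∏ j ∈ range N, ‖1 + ((s j / s k : ℝ) : ℂ) * Complex.exp (eta * I)‖) := by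
    unfold mass
    rw [e0, ← Finset.mul_prod_erase _ _ hmem]
    generalize (∏ j ∈ ((range N).erase k).erase i, |1 - s j / s k|) = A at *
    generalize (∏ j ∈ range N, ‖1 + ((s j / s k : ℝ) : ℂ) * Complex.exp (eta * I)‖) = B at *
    generalize |1 - s i / s k| = C at *
    field_simp
  rw [e3, le_div_iff₀ (mul_pos p1 p2)]
  refine le_trans ?_ hnum
  set φ : ℕ → ℝ := fun j => -(z * s j * conj om).re + ‖z * s j * conj om‖ ^ 2 / 2 with hφ
  set ψ : ℕ → ℝ := fun j => -(z * s j * om).re + ‖z * s j * om‖ ^ 2 / 2 with hψ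
  have q1 : ∏ j ∈ ((range N).erase k).erase i, |1 - s j / s k|
      ≤ Real.exp (∑ j ∈ ((range N).erase k).erase i, φ j) := by
    rw [Real.exp_sum]
    apply Finset.prod_le_prod (fun _ _ => abs_nonneg _)
    intro j _
    rw [e1]; exact norm_one_sub_le _
  have q2 : ∏ j ∈ range N, ‖1 + ((s j / s k : ℝ) : ℂ) * Complex.exp (eta * I)‖
      ≤ Real.exp (∑ j ∈ range N, ψ j) := by
    rw [Real.exp_sum]
    apply Finset.prod_le_prod (fun _ _ => norm_nonneg _)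
    intro j _
    rw [e2]; exact norm_one_sub_le _
  have q3 : ∀ j < N, -(2 * (s k)⁻¹) ≤ φ j := by
    intro j hj
    have b1 := (abs_le.1 (Complex.abs_re_le_norm (z * s j * conj om))).2
    have b2 : ‖z * s j * conj om‖ = (s k)⁻¹ * s j := by
      simp [hzn, om_norm, abs_of_pos (hs j hj)]
    have b3 := mul_le_mul_of_nonneg_left (hs2 j hj) hu.le
    have b4 := sq_nonneg ‖z * s j * conj om‖
    simp only [hφ]
    linarith
  have q4 : ∑ j ∈ ((range N).erase k).erase i, φ j ≤ ∑ j ∈ range N, φ j + 4 * (s k)⁻¹ := by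
    rw [← Finset.add_sum_erase (range N) φ (Finset.mem_range.2 hk),
      ← Finset.add_sum_erase _ φ hmem]
    linarith [q3 k hk, q3 i hi]
  have q5 : ∑ j ∈ range N, φ j + ∑ j ∈ range N, ψ j
      = 2 * kap * z.re * ∑ j ∈ range N, s j + ‖z‖ ^ 2 * ∑ j ∈ range N, s j ^ 2 := by
    rw [Finset.mul_sum, Finset.mul_sum, ← Finset.sum_add_distrib, ← Finset.sum_add_distrib]
    apply Finset.sum_congr rfl
    intro j _
    simp only [hφ, hψ]
    simp [om_norm, om_re, mul_pow]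
    ring
  refine (mul_le_mul_of_nonneg_left (mul_le_mul q1 q2 p2.le (Real.exp_pos _).le)
    (Real.exp_pos _).le).trans ?_
  rw [← Real.exp_add, ← Real.exp_add, Real.exp_le_exp, hB, ← hzn]
  rw [← hzn] at q4
  have b1 := (abs_le.1 (Complex.abs_re_le_norm z)).1
  have b2 := mul_le_mul_of_nonneg_left h2 (sq_nonneg ‖z‖)
  have b3 := mul_le_mul_of_nonneg_right h1 (sq_nonneg ‖z‖)
  linarith

end

theorem finite_stage (N : ℕ) (hN : 1 ≤ N) : ∃ (s m : ℕ → ℝ) (ρ : ℝ),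
    0 < ρ ∧ ρ ≤ 2 / v N ^ 2 ∧ (∀ j, 0 ≤ s j) ∧ (∀ j, s j ≤ 2 / v (j + 1) ^ 2) ∧ Antitone s ∧
    (∀ j, 0 ≤ m j) ∧ (∀ j, N ≤ j → m j = 0) ∧ 2 * kap * ∑ j ∈ range N, m j = 1 ∧
    (∀ z : ℂ, ρ * ‖z‖ ≤ 1 / 2 → (∀ j, Q (z * s j) ≠ 0) →
      Real.exp (-‖z‖ - 20 * ‖z‖ ^ 2) ≤ ‖∑ j ∈ range N, m j * K (z * s j)‖) ∧
    (∀ x : ℝ, 0 ≤ x → ρ * x ≤ 1 / 2 → ∃ y : ℝ, 0 ≤ y ∧ y ≤ Real.exp (-x) ∧
      ∑ j ∈ range N, m j * K (((-x : ℝ) : ℂ) * s j) = y) ∧
    (∀ k i, k < N → i < N → i ≠ k → ρ * (s k)⁻¹ ≤ 1 / 2 →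
      Real.exp (-5 * (s k)⁻¹ - 20 * (s k)⁻¹ ^ 2) ≤ m k * |1 - s i / s k|) := by
  obtain ⟨r, hr, hmono, he⟩ := bethe_sol N hN
  have hap := apriori N r hr he
  set B := (2 * (N : ℝ) - 1) - 2 * kap * ∑ j ∈ range N, 1 / r j with hBdef
  have vp : ∀ j, 0 < v (j + 1) := fun j => v_pos (Nat.le_add_left 1 j)
  have hB0 : 0 < B := by
    have h1 := hap 0 hN
    have h2 : 0 < v (0 + 1) ^ 2 / 2 := by have := vp 0; positivity
    exact (mul_pos_iff_of_pos_right (hr 0)).1 (lt_of_lt_of_le h2 h1)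
  obtain ⟨M, hM⟩ : ∃ M : ℕ, M + 1 = 2 * N := ⟨2 * N - 1, by omega⟩
  have hMr : (M : ℝ) = 2 * N - 1 := by
    have : ((M + 1 : ℕ) : ℝ) = (2 * N : ℕ) := by rw [hM]
    push_cast at this; linarith
  set ρ := 1 / B with hρdef
  have hρ : 0 < ρ := by positivity
  set s : ℕ → ℝ := fun j => if j < N then ρ / r j else 0 with hsdef
  have hsv : ∀ j < N, s j = ρ / r j := fun j hj => by simp only [hsdef, if_pos hj]
  have hs : ∀ j < N, 0 < s j := fun j hj => by rw [hsv j hj]; exact div_pos hρ (hr j)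
  have hs0 : ∀ j, 0 ≤ s j := by
    intro j
    by_cases hj : j < N
    · exact (hs j hj).le
    · simp only [hsdef, if_neg hj, le_refl]
  have hanti : ∀ i j, i < j → j < N → s j < s i := by
    intro i j hij hj
    rw [hsv j hj, hsv i (hij.trans hj)]
    exact div_lt_div_of_pos_left hρ (hr i) (hmono i j hij hj)
  have hsle : ∀ j, s j ≤ 2 / v (j + 1) ^ 2 := by
    intro j
    have h0 : 0 < v (j + 1) ^ 2 := by have := vp j; positivity
    by_cases hj : j < N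
    · rw [hsv j hj, hρdef, div_div, div_le_div_iff₀ (mul_pos hB0 (hr j)) h0]
      linarith [hap j hj]
    · simp only [hsdef, if_neg hj]; positivity
  have hs2 : ∀ j < N, s j ≤ 2 := by
    intro j _
    refine (hsle j).trans (div_le_self (by norm_num) ?_)
    exact one_le_pow₀ (one_le_v (Nat.le_add_left 1 j))
  have he' : ∀ k < N,
      (M : ℝ) * G bet (ρ / s k) - ∑ j ∈ range N, G eta (s j / s k) = π * (k + 1) - bet := by
    intro k hk
    rw [← he k hk, hMr]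
    have a1 : ρ / s k = r k := by rw [hsv k hk]; field_simp
    rw [a1]
    congr 1
    apply Finset.sum_congr rfl
    intro j hj
    rw [hsv k hk, hsv j (Finset.mem_range.1 hj)]
    congr 1
    have := hr j
    have := hr k
    field_simp
  have hB : M * ρ = 1 + 2 * kap * ∑ j ∈ range N, s j := by
    have a1 : ∑ j ∈ range N, s j = ρ * ∑ j ∈ range N, 1 / r j := by
      rw [Finset.mul_sum]
      apply Finset.sum_congr rfl
      intro j hj
      rw [hsv j (Finset.mem_range.1 hj)]; ring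
    have a2 : ρ * B = 1 := by rw [hρdef]; field_simp
    rw [a1, hMr]
    rw [hBdef] at a2
    linarith
  have hvN := one_le_v hN
  have hk0 := kap_pos
  have hk1 := kap_le
  have hsum1 : ∑ j ∈ range N, s j ≤ 6 * v N := by
    calc _ ≤ ∑ j ∈ range N, 2 * (1 / v (j + 1) ^ 2) :=
          Finset.sum_le_sum fun j _ => (hsle j).trans (le_of_eq (by ring))
      _ = 2 * ∑ j ∈ range N, 1 / v (j + 1) ^ 2 := by rw [Finset.mul_sum]
      _ ≤ _ := by linarith [sum_v2 N]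
  have hsum2 : ∑ j ∈ range N, s j ^ 2 ≤ 16 := by
    calc _ ≤ ∑ j ∈ range N, 4 * (1 / v (j + 1) ^ 4) := by
          apply Finset.sum_le_sum
          intro j _
          refine (pow_le_pow_left₀ (hs0 j) (hsle j) 2).trans (le_of_eq ?_)
          have := vp j
          field_simp
          norm_num
      _ = 4 * ∑ j ∈ range N, 1 / v (j + 1) ^ 4 := by rw [Finset.mul_sum]
      _ ≤ _ := by linarith [sum_v4' N]
  have hMρ : M * ρ ≤ 2 * v N := by
    rw [hB]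
    have := mul_le_mul hk1 hsum1 (Finset.sum_nonneg fun j _ => hs0 j) (by norm_num)
    linarith
  have hMN : v N ^ 3 ≤ M := by
    have : (1 : ℝ) ≤ N := by exact_mod_cast hN
    rw [v_cube, hMr]; linarith
  have hρle : ρ ≤ 2 / v N ^ 2 := by
    rw [le_div_iff₀ (by positivity)]
    have a1 := mul_le_mul_of_nonneg_right hMN hρ.le
    have a2 : v N * (ρ * v N ^ 2) ≤ v N * 2 := by linarith
    exact le_of_mul_le_mul_left a2 (by linarith)
  have hMρ2 : M * ρ ^ 2 ≤ 4 := by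
    have a1 := mul_le_mul hMρ hρle hρ.le (by linarith)
    have a2 : 2 * v N * (2 / v N ^ 2) = 4 / v N := by field_simp; norm_num
    have a3 : 4 / v N ≤ 4 := div_le_self (by norm_num) hvN
    linarith
  set m : ℕ → ℝ := fun j => if j < N then mass N M s ρ j else 0 with hmdef
  have hmv : ∀ j < N, m j = mass N M s ρ j := fun j hj => by simp only [hmdef, if_pos hj]
  have hpf : ∀ z : ℂ, (∀ j < N, Q (z * s j) ≠ 0) →
      ∑ j ∈ range N, m j * K (z * s j) = (1 + ρ * z) ^ M / ∏ j ∈ range N, Q (z * s j) := by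
    intro z hz
    rw [← pf_stage N M hM s ρ hs hanti he' z hz]
    exact Finset.sum_congr rfl fun j hj => by rw [hmv j (Finset.mem_range.1 hj)]
  refine ⟨s, m, ρ, hρ, hρle, hs0, hsle, ?_, ?_, ?_, ?_, ?_, ?_, ?_⟩
  · intro i j hij
    rcases hij.lt_or_eq with h | h
    · by_cases hj : j < N
      · exact (hanti i j h hj).le
      · have : s j = 0 := by simp only [hsdef, if_neg hj]
        rw [this]; exact hs0 i
    · rw [h]
  · intro j
    by_cases hj : j < N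
    · rw [hmv j hj]; exact mass_nonneg _ _ _ _ _
    · simp only [hmdef, if_neg hj, le_refl]
  · intro j hj
    simp only [hmdef, if_neg (not_lt.2 hj)]
  · have := hpf 0 (by intro j _; simp [Q])
    simp only [zero_mul, mul_zero, add_zero, one_pow, Q, K, zero_add, ne_eq, OfNat.ofNat_ne_zero,
      not_false_eq_true, zero_pow, div_one, Finset.prod_const_one, ← Finset.sum_mul] at this
    have h2 : ((2 * kap * ∑ j ∈ range N, m j : ℝ) : ℂ) = (1 : ℝ) := by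
      push_cast; rw [← this]; ring
    exact_mod_cast h2
  · intro z hz hQ
    rw [hpf z fun j _ => hQ j]
    exact f_lower N M s ρ hρ hB hMρ2 hsum2 z hz fun j _ => hQ j
  · intro x hx hz
    rw [hpf]
    · exact f_neg N M s ρ (fun j _ => hs0 j) hB x hx hz
    · intro j _
      have a1 := lt_of_lt_of_le (Real.exp_pos _) (Q_neg_lower (mul_nonneg hx (hs0 j)))
      rw [← Complex.ofReal_mul, Q_real, neg_mul]
      exact_mod_cast a1.ne'
  · intro k i hk hi hik hz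
    rw [hmv k hk]
    exact mass_lower N M s ρ hρ hs hs2 hanti hB hMρ2 hsum2 k i hk hi hik hz

end Pool.Agent.Lib.MP_3f6bc3_an
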