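import Pool.Agent.Lib.MP_3f6bc3_an.Finite

set_option autoImplicit false

namespace Pool.Agent.Lib.MP_3f6bc3_an

open Finset Real Complex ComplexConjugate Filter Topology

lemma tail_bound (μ : ℕ → ℝ) (δ : ℕ → ℂ) (C ε : ℝ) (J : ℕ) (h0 : ∀ j, 0 ≤ μ j)
    (hC : ∀ n, ∑ j ∈ range n, μ j ≤ C) (hε : 0 ≤ ε) (hδ : ∀ j, J ≤ j → ‖δ j‖ ≤ ε) :
    Summable (fun j => (μ j : ℂ) * δ j) ∧
      ‖∑' j, (μ j : ℂ) * δ j - ∑ j ∈ range J, (μ j : ℂ) * δ j‖ ≤ C * ε := by
  have hs : Summable μ := summable_of_sum_range_le h0 hC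
  have hsJ : Summable (fun j => μ (j + J)) := (summable_nat_add_iff J).2 hs
  have hb : ∀ j, ‖(μ (j + J) : ℂ) * δ (j + J)‖ ≤ μ (j + J) * ε := by
    intro j
    rw [norm_mul, Complex.norm_real, Real.norm_of_nonneg (h0 _)]
    exact mul_le_mul_of_nonneg_left (hδ _ (by omega)) (h0 _)
  have hs2 : Summable (fun j => (μ j : ℂ) * δ j) :=
    (summable_nat_add_iff J).1 (Summable.of_norm_bounded (hsJ.mul_right ε) hb)
  refine ⟨hs2, ?_⟩
  rw [← hs2.sum_add_tsum_nat_add J, add_sub_cancel_left]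
  refine (tsum_of_norm_bounded (hsJ.hasSum.mul_right ε) hb).trans ?_
  apply mul_le_mul_of_nonneg_right _ hε
  have h1 := hs.sum_add_tsum_nat_add J
  have h2 := Real.tsum_le_of_sum_range_le h0 hC
  have h3 : 0 ≤ ∑ j ∈ range J, μ j := Finset.sum_nonneg fun j _ => h0 j
  linarith

lemma lim_series (mn : ℕ → ℕ → ℝ) (dn : ℕ → ℕ → ℂ) (m : ℕ → ℝ) (d : ℕ → ℂ) (C : ℝ)
    (h0 : ∀ n j, 0 ≤ mn n j) (hC : ∀ n J, ∑ j ∈ range J, mn n j ≤ C)
    (hm0 : ∀ j, 0 ≤ m j) (hmC : ∀ J, ∑ j ∈ range J, m j ≤ C)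
    (hm : ∀ j, Tendsto (fun n => mn n j) atTop (𝓝 (m j)))
    (hd : ∀ j, Tendsto (fun n => dn n j) atTop (𝓝 (d j)))
    (ht : ∀ ε > 0, ∃ J, ∀ n j, J ≤ j → ‖dn n j‖ ≤ ε) :
    Tendsto (fun n => ∑' j, (mn n j : ℂ) * dn n j) atTop (𝓝 (∑' j, (m j : ℂ) * d j)) := by
  have hC0 : 0 ≤ C := by simpa using hmC 0
  rw [Metric.tendsto_nhds]
  intro ε hε
  set e := ε / (3 * (C + 1)) with he
  have he0 : 0 < e := by positivity
  have hCe : C * e < ε / 3 := by
    have : (C + 1) * e = ε / 3 := by rw [he]; field_simp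
    nlinarith
  obtain ⟨J, hJ⟩ := ht e he0
  have hdJ : ∀ j, J ≤ j → ‖d j‖ ≤ e := fun j hj =>
    le_of_tendsto' (hd j).norm fun n => hJ n j hj
  have hfin : Tendsto (fun n => ∑ j ∈ range J, (mn n j : ℂ) * dn n j) atTop
      (𝓝 (∑ j ∈ range J, (m j : ℂ) * d j)) :=
    tendsto_finsetSum _ fun j _ =>
      ((Complex.continuous_ofReal.tendsto _).comp (hm j)).mul (hd j)
  filter_upwards [Metric.tendsto_nhds.1 hfin (ε / 3) (by positivity)] with n hn
  have a1 := (tail_bound (mn n) (dn n) C e J (h0 n) (hC n) he0.le (hJ n)).2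
  have a2 := (tail_bound m d C e J hm0 hmC he0.le hdJ).2
  rw [← dist_eq_norm] at a1 a2
  have a3 := dist_triangle4 (∑' j, (mn n j : ℂ) * dn n j) (∑ j ∈ range J, (mn n j : ℂ) * dn n j)
    (∑ j ∈ range J, (m j : ℂ) * d j) (∑' j, (m j : ℂ) * d j)
  rw [dist_comm] at a2
  linarith

lemma norm_Q_ge {t : ℂ} (ht : ‖t‖ ≤ 1 / 2) : 1 / 4 ≤ ‖Q t‖ := by
  rw [Q_eq, norm_mul]
  have a : ∀ w : ℂ, ‖w‖ = 1 → 1 / 2 ≤ ‖1 - t * w‖ := by
    intro w hw
    have := norm_sub_norm_le (1 : ℂ) (t * w)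
    rw [norm_one, norm_mul, hw] at this
    linarith
  have a1 := a (conj om) (by simp [om_norm])
  have a2 := a om om_norm
  nlinarith

lemma Q_ne {t : ℂ} (ht : ‖t‖ ≤ 1 / 2) : Q t ≠ 0 := by
  have := norm_Q_ge ht
  rw [← norm_pos_iff]; linarith

lemma K_sub_le {t : ℂ} (ht : ‖t‖ ≤ 1 / 2) : ‖K t - 2 * kap‖ ≤ 16 * ‖t‖ := by
  have h1 := norm_Q_ge ht
  have h2 := Q_ne ht
  have hk0 := kap_pos
  have hk1 := kap_le
  have e : K t - 2 * kap = t * (2 - (4 * kap ^ 2 + 2 * kap * t)) / Q t := by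
    unfold K
    field_simp
    unfold Q
    ring
  rw [e, norm_div, norm_mul, div_le_iff₀ (by linarith)]
  have h3 : ‖(2 : ℂ) - (4 * kap ^ 2 + 2 * kap * t)‖ ≤ 4 := by
    refine (norm_sub_le _ _).trans ?_
    have := norm_add_le (4 * (kap : ℂ) ^ 2) (2 * kap * t)
    simp only [norm_mul, norm_pow, Complex.norm_real, Real.norm_of_nonneg hk0.le,
      Complex.norm_ofNat] at this ⊢
    nlinarith [norm_nonneg t]
  nlinarith [norm_nonneg t, mul_le_mul_of_nonneg_left h3 (norm_nonneg t),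
    mul_le_mul_of_nonneg_left h1 (norm_nonneg t)]

lemma Q_cont : Continuous Q := by unfold Q; fun_prop

lemma K_contAt {t : ℂ} (ht : Q t ≠ 0) : ContinuousAt K t := by
  unfold K
  exact ContinuousAt.div (by fun_prop) Q_cont.continuousAt ht

noncomputable def kr (t : ℝ) : ℝ := 2 * (t + kap) / (1 + 2 * kap * t + t ^ 2)

lemma K_real (t : ℝ) : K (t : ℂ) = (kr t : ℝ) := by
  unfold K kr; rw [Q_real]; push_cast; ring

lemma den_ge (t : ℝ) : (1 + t ^ 2) / 2 ≤ 1 + 2 * kap * t + t ^ 2 := by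
  have hk0 := kap_pos
  have hk1 := kap_le
  nlinarith [sq_nonneg (t + 2 * kap), sq_nonneg kap]

lemma Q_real_ne (t : ℝ) : Q (t : ℂ) ≠ 0 := by
  rw [Q_real]
  have := den_ge t
  have h : 0 < 1 + 2 * kap * t + t ^ 2 := by nlinarith [sq_nonneg t]
  exact_mod_cast h.ne'

lemma kr_abs_le (t : ℝ) : |kr t| ≤ 4 := by
  have hk0 := kap_pos
  have hk1 := kap_le
  have h := den_ge t
  have h0 : 0 < 1 + 2 * kap * t + t ^ 2 := by nlinarith [sq_nonneg t]
  unfold kr
  rw [abs_le, le_div_iff₀ h0, div_le_iff₀ h0]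
  constructor <;> nlinarith [sq_nonneg (t + 1), sq_nonneg (t - 1)]

lemma kr_abs_le' {t : ℝ} (ht : 1 ≤ t) : |kr (-t)| ≤ 4 * t⁻¹ := by
  have hk0 := kap_pos
  have hk1 := kap_le
  have h := den_ge (-t)
  have h0 : 0 < 1 + 2 * kap * (-t) + (-t) ^ 2 := by nlinarith [sq_nonneg t]
  unfold kr
  rw [abs_div, abs_of_pos h0, abs_of_nonpos (by linarith), ← div_eq_mul_inv,
    div_le_div_iff₀ h0 (by linarith)]
  nlinarith

lemma kr_nonpos {t : ℝ} (ht : 1 ≤ t) : kr (-t) ≤ 0 := by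
  have hk1 := kap_le
  have h := den_ge (-t)
  apply div_nonpos_of_nonpos_of_nonneg <;> nlinarith [sq_nonneg t]

lemma kr_zero : kr 0 = 2 * kap := by simp [kr]

lemma kr_tendsto : Tendsto (fun t => kr (-t)) atTop (𝓝 0) := by
  have h : Tendsto (fun t : ℝ => 4 * t⁻¹) atTop (𝓝 0) := by
    simpa using tendsto_inv_atTop_zero.const_mul (4 : ℝ)
  refine squeeze_zero_norm' ?_ h
  filter_upwards [eventually_ge_atTop 1] with t ht
  exact kr_abs_le' ht

theorem limit_config : ∃ s m : ℕ → ℝ, (∀ j, 0 < s j) ∧ Function.Injective s ∧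
    Tendsto s atTop (𝓝 0) ∧ (∀ j, 0 < m j) ∧ Summable m ∧
    ∀ z : ℂ, (∀ j, Q (z * s j) ≠ 0) → ∑' j, (m j : ℂ) * K (z * s j) ≠ 0 := by
  choose sN mN ρN hρ0 hρ1 hs0 hs1 hanti hm0 hmz hsum hlow hneg hres using
    fun N => finite_stage (N + 1) (Nat.le_add_left 1 N)
  have hk0 := kap_pos
  have hk1 := kap_le
  set C := 1 / (2 * kap) with hC
  have vp : ∀ j, 0 < v (j + 1) := fun j => v_pos (Nat.le_add_left 1 j)
  have hpart : ∀ n J, ∑ j ∈ range J, mN n j ≤ C := by
    intro n J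
    have h1 : ∑ j ∈ range J, mN n j ≤ ∑ j ∈ range (max J (n + 1)), mN n j :=
      Finset.sum_le_sum_of_subset_of_nonneg (Finset.range_mono (le_max_left _ _))
        fun j _ _ => hm0 n j
    have h2 : ∑ j ∈ range (n + 1), mN n j = ∑ j ∈ range (max J (n + 1)), mN n j :=
      Finset.sum_subset (Finset.range_mono (le_max_right _ _)) fun j _ hj =>
        hmz n j (by simpa using hj)
    rw [hC, le_div_iff₀ (by positivity)]
    have := hsum n
    nlinarith
  have hmle : ∀ n j, mN n j ≤ C := fun n j =>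
    (Finset.single_le_sum (f := mN n) (fun i _ => hm0 n i)
      (Finset.self_mem_range_succ j)).trans (hpart n (j + 1))
  have hcomp : IsCompact ((Set.univ.pi fun j : ℕ => Set.Icc (0 : ℝ) (2 / v (j + 1) ^ 2)) ×ˢ
      (Set.univ.pi fun _ : ℕ => Set.Icc (0 : ℝ) C)) :=
    (isCompact_univ_pi fun _ => isCompact_Icc).prod (isCompact_univ_pi fun _ => isCompact_Icc)
  obtain ⟨⟨s, m⟩, ⟨hsm, hmm⟩, φ, hφ, hlim⟩ := hcomp.tendsto_subseq (x := fun n => (sN n, mN n))
    fun n => ⟨fun j _ => ⟨hs0 n j, hs1 n j⟩, fun j _ => ⟨hm0 n j, hmle n j⟩⟩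
  have ls : ∀ j, Tendsto (fun n => sN (φ n) j) atTop (𝓝 (s j)) :=
    tendsto_pi_nhds.1 ((continuous_fst.tendsto _).comp hlim)
  have lm : ∀ j, Tendsto (fun n => mN (φ n) j) atTop (𝓝 (m j)) :=
    tendsto_pi_nhds.1 ((continuous_snd.tendsto _).comp hlim)
  have s0 : ∀ j, 0 ≤ s j := fun j => (hsm j trivial).1
  have s1 : ∀ j, s j ≤ 2 / v (j + 1) ^ 2 := fun j => (hsm j trivial).2
  have m0 : ∀ j, 0 ≤ m j := fun j => (hmm j trivial).1
  have santi : Antitone s := fun i j hij =>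
    le_of_tendsto_of_tendsto' (ls j) (ls i) fun n => hanti _ hij
  have mpart : ∀ J, ∑ j ∈ range J, m j ≤ C := fun J =>
    le_of_tendsto' (tendsto_finsetSum _ fun j _ => lm j) fun n => hpart _ J
  have msum : Summable m := summable_of_sum_range_le m0 mpart
  have vlim : Tendsto (fun j => 2 / v (j + 1) ^ 2) atTop (𝓝 0) :=
    tendsto_const_nhds.div_atTop ((tendsto_pow_atTop two_ne_zero).comp
      (v_tendsto.comp (tendsto_add_atTop_nat 1)))
  have slim : Tendsto s atTop (𝓝 0) := squeeze_zero s0 s1 vlim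
  have ρlim : Tendsto (fun n => ρN (φ n)) atTop (𝓝 0) :=
    squeeze_zero (fun n => (hρ0 _).le) (fun n => hρ1 _) (vlim.comp hφ.tendsto_atTop)
  have small : ∀ (z : ℂ) (ε : ℝ), 0 < ε → ∃ J, ∀ n j, J ≤ j → ‖z * sN n j‖ ≤ ε := by
    intro z ε hε
    have h1 : Tendsto (fun j => ‖z‖ * (2 / v (j + 1) ^ 2)) atTop (𝓝 0) := by
      simpa using vlim.const_mul ‖z‖
    obtain ⟨J, hJ⟩ := eventually_atTop.1 (h1.eventually (ge_mem_nhds hε))
    refine ⟨J, fun n j hj => le_trans ?_ (hJ j hj)⟩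
    rw [norm_mul, Complex.norm_real, Real.norm_of_nonneg (hs0 n j)]
    exact mul_le_mul_of_nonneg_left (hs1 n j) (norm_nonneg z)
  have lzs : ∀ (z : ℂ) j, Tendsto (fun n => z * sN (φ n) j) atTop (𝓝 (z * s j)) := fun z j =>
    ((Complex.continuous_ofReal.tendsto _).comp (ls j)).const_mul z
  have main : ∀ z : ℂ, (∀ j, Q (z * s j) ≠ 0) →
      Tendsto (fun n => ∑ j ∈ range (φ n + 1), (mN (φ n) j : ℂ) * K (z * sN (φ n) j)) atTop
        (𝓝 (∑' j, (m j : ℂ) * (K (z * s j) - 2 * kap) + 1)) := by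
    intro z hz
    have h1 := lim_series (fun n => mN (φ n)) (fun n j => K (z * sN (φ n) j) - 2 * kap) m
      (fun j => K (z * s j) - 2 * kap) C (fun n => hm0 _) (fun n => hpart _) m0 mpart lm
      (fun j => (((K_contAt (hz j)).tendsto).comp (lzs z j)).sub_const _)
      (by
        intro ε hε
        obtain ⟨J, hJ⟩ := small z (min (1 / 2) (ε / 16)) (by positivity)
        refine ⟨J, fun n j hj => ?_⟩
        have a := hJ (φ n) j hj
        have := K_sub_le (a.trans (min_le_left _ _))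
        linarith [a.trans (min_le_right _ _)])
    refine (h1.add_const 1).congr fun n => ?_
    rw [tsum_eq_sum (s := range (φ n + 1))
      (fun j hj => by rw [hmz (φ n) j (by simpa using hj)]; simp)]
    have h2 : ((2 * kap * ∑ j ∈ range (φ n + 1), mN (φ n) j : ℝ) : ℂ) = 1 := by
      rw [hsum]; simp
    simp only [mul_sub, Finset.sum_sub_distrib, ← Finset.sum_mul]
    push_cast at h2
    linear_combination -h2
  have evρ : ∀ c : ℝ, ∀ᶠ n in atTop, ρN (φ n) * c ≤ 1 / 2 := fun c =>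
    (ρlim.mul_const c).eventually (ge_mem_nhds (by simp))
  have lowT : ∀ z : ℂ, (∀ j, Q (z * s j) ≠ 0) →
      Real.exp (-‖z‖ - 20 * ‖z‖ ^ 2) ≤ ‖∑' j, (m j : ℂ) * (K (z * s j) - 2 * kap) + 1‖ := by
    intro z hz
    refine ge_of_tendsto (main z hz).norm ?_
    obtain ⟨J, hJ⟩ := small z (1 / 2) (by norm_num)
    have h1 : ∀ᶠ n in atTop, ∀ j ∈ range J, Q (z * sN (φ n) j) ≠ 0 := by
      rw [Filter.eventually_all_finset]
      intro j _
      exact ((Q_cont.tendsto _).comp (lzs z j)).eventually_ne (hz j)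
    filter_upwards [h1, evρ ‖z‖] with n hn1 hn2
    refine hlow _ z hn2 fun j => ?_
    rcases lt_or_ge j J with h | h
    · exact hn1 j (Finset.mem_range.2 h)
    · exact Q_ne (hJ _ j h)
  set τ : ℝ → ℝ := fun x => ∑' j, m j * (kr (-(x * s j)) - 2 * kap) + 1 with hτ
  have τeq : ∀ x : ℝ, ∑' j, (m j : ℂ) * (K (((-x : ℝ) : ℂ) * s j) - 2 * kap) + 1 = (τ x : ℝ) := by
    intro x
    simp only [hτ]
    rw [Complex.ofReal_add, Complex.ofReal_tsum, Complex.ofReal_one]
    congr 2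
    ext j
    rw [← Complex.ofReal_mul (-x), K_real, neg_mul]
    push_cast; ring
  have hQx : ∀ (x : ℝ) j, Q (((-x : ℝ) : ℂ) * s j) ≠ 0 := fun x j => by
    rw [← Complex.ofReal_mul]; exact Q_real_ne _
  have τbd : ∀ x : ℝ, 0 ≤ x → 0 < τ x ∧ τ x ≤ Real.exp (-x) := by
    intro x hx
    have h1 := main _ (hQx x)
    have h2 := lowT _ (hQx x)
    rw [τeq] at h1 h2
    have h3 := (Complex.continuous_re.tendsto _).comp h1
    rw [Complex.ofReal_re] at h3
    have h4 : 0 ≤ τ x := by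
      refine ge_of_tendsto h3 ?_
      filter_upwards [evρ x] with n hn
      obtain ⟨y, hy0, -, hy⟩ := hneg _ x hx hn
      simp only [Function.comp, hy, Complex.ofReal_re, hy0]
    refine ⟨?_, ?_⟩
    · rw [Complex.norm_real (τ x), Real.norm_of_nonneg h4] at h2
      exact lt_of_lt_of_le (Real.exp_pos _) h2
    · refine le_of_tendsto h3 ?_
      filter_upwards [evρ x] with n hn
      obtain ⟨y, -, hy1, hy⟩ := hneg _ x hx hn
      simp only [Function.comp, hy, Complex.ofReal_re, hy1]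
  have bd : ∀ (x : ℝ) j, ‖m j * (kr (-(x * s j)) - 2 * kap)‖ ≤ m j * 5 := by
    intro x j
    rw [norm_mul, Real.norm_of_nonneg (m0 j)]
    apply mul_le_mul_of_nonneg_left _ (m0 j)
    have := abs_le.1 (kr_abs_le (-(x * s j)))
    rw [Real.norm_eq_abs, abs_le]; constructor <;> linarith
  set g : ℕ → ℝ := fun j => m j * (if s j = 0 then 0 else -(2 * kap)) with hg
  have τlim : Tendsto τ atTop (𝓝 (∑' j, g j + 1)) := by
    refine Tendsto.add_const 1 (tendsto_tsum_of_dominated_convergence (msum.mul_right 5) ?_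
      (Eventually.of_forall bd))
    intro j
    apply Tendsto.const_mul
    split_ifs with h
    · simp [h, kr_zero]
    · have h1 : Tendsto (fun x : ℝ => x * s j) atTop atTop :=
        tendsto_id.atTop_mul_const (lt_of_le_of_ne (s0 j) (Ne.symm h))
      simpa using (kr_tendsto.comp h1).sub_const (2 * kap)
  have τlim0 : Tendsto τ atTop (𝓝 0) := by
    refine squeeze_zero' ?_ ?_ Real.tendsto_exp_neg_atTop_nhds_zero
    · filter_upwards [eventually_ge_atTop 0] with x hx using (τbd x hx).1.le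
    · filter_upwards [eventually_ge_atTop 0] with x hx using (τbd x hx).2
  have hc : ∑' j, g j + 1 = 0 := tendsto_nhds_unique τlim τlim0
  have gsum : Summable g := by
    refine Summable.of_norm_bounded (msum.mul_right 1) fun j => ?_
    simp only [hg]
    rw [norm_mul, Real.norm_of_nonneg (m0 j)]
    apply mul_le_mul_of_nonneg_left _ (m0 j)
    split_ifs
    · simp
    · rw [norm_neg, Real.norm_of_nonneg (by positivity)]; linarith
  have spos : ∀ j, 0 < s j := by
    intro J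
    by_contra hJ
    have hJ0 : ∀ j, J ≤ j → s j = 0 := fun j hj =>
      le_antisymm ((santi hj).trans (not_lt.1 hJ)) (s0 j)
    have h1 : ∀ᶠ x : ℝ in atTop, ∀ j ∈ range J, s j ≠ 0 → 1 ≤ x * s j := by
      rw [Filter.eventually_all_finset]
      intro j _
      by_cases h : s j = 0
      · simp [h]
      · have h1 : Tendsto (fun x : ℝ => x * s j) atTop atTop :=
          tendsto_id.atTop_mul_const (lt_of_le_of_ne (s0 j) (Ne.symm h))
        filter_upwards [h1.eventually_ge_atTop 1] with x hx _ using hx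
    obtain ⟨x, hx1, hx0⟩ := (h1.and (eventually_ge_atTop 0)).exists
    have h2 : ∑' j, m j * (kr (-(x * s j)) - 2 * kap) ≤ ∑' j, g j := by
      refine Summable.tsum_le_tsum (fun j => ?_)
        (Summable.of_norm_bounded (msum.mul_right 5) (bd x)) gsum
      apply mul_le_mul_of_nonneg_left _ (m0 j)
      split_ifs with h
      · simp [h, kr_zero]
      · have hj : j < J := by
          by_contra hj
          exact h (hJ0 j (not_lt.1 hj))
        linarith [kr_nonpos (hx1 j (Finset.mem_range.2 hj) h)]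
    have h3 := (τbd x hx0).1
    simp only [hτ] at h3
    linarith
  have hc' : 2 * kap * ∑' j, m j = 1 := by
    have : ∑' j, g j = (∑' j, m j) * -(2 * kap) := by
      rw [← tsum_mul_right]
      congr 1; ext j
      simp only [hg, if_neg (spos j).ne']
    rw [this] at hc
    linarith
  have resid : ∀ k i, i ≠ k →
      Real.exp (-5 * (s k)⁻¹ - 20 * (s k)⁻¹ ^ 2) ≤ m k * |1 - s i / s k| := by
    intro k i hik
    have li := (ls k).inv₀ (spos k).ne'
    refine le_of_tendsto_of_tendsto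
      (((li.const_mul (-5)).sub ((li.pow 2).const_mul 20)).rexp)
      ((lm k).mul (((ls i).div (ls k) (spos k).ne').const_sub 1).abs) ?_
    have e1 : ∀ᶠ n in atTop, ρN (φ n) * (sN (φ n) k)⁻¹ ≤ 1 / 2 :=
      (ρlim.mul li).eventually (ge_mem_nhds (by simp))
    filter_upwards [e1, hφ.tendsto_atTop.eventually_ge_atTop k,
      hφ.tendsto_atTop.eventually_ge_atTop i] with n h1 h2 h3
    exact hres _ k i (by omega) (by omega) hik h1
  have resid' : ∀ k i, i ≠ k → 0 < m k * |1 - s i / s k| := fun k i h =>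
    lt_of_lt_of_le (Real.exp_pos _) (resid k i h)
  refine ⟨s, m, spos, ?_, slim, ?_, msum, ?_⟩
  · intro k i h
    by_contra hne
    have := resid' k i (Ne.symm hne)
    rw [← h, div_self (spos k).ne'] at this
    simp at this
  · intro k
    have := resid' k (k + 1) (Nat.succ_ne_self k)
    rcases (m0 k).lt_or_eq with h | h
    · exact h
    · rw [← h] at this; simp at this
  · intro z hz
    have h1 := lowT z hz
    have h2 : Summable fun j => (m j : ℂ) * (K (z * s j) - 2 * kap) := by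
      obtain ⟨J, hJ⟩ := eventually_atTop.1
        (((Complex.continuous_ofReal.tendsto _).comp slim).const_mul z |>.norm.eventually
          (ge_mem_nhds (show ‖z * ((0 : ℝ) : ℂ)‖ < 1 / 2 by simp)))
      refine (tail_bound m _ C 8 J m0 mpart (by norm_num) fun j hj => ?_).1
      have a : ‖z * s j‖ ≤ 1 / 2 := hJ j hj
      linarith [K_sub_le a]
    have h3 : Summable fun j => (m j : ℂ) * (2 * kap) :=
      (Complex.summable_ofReal.2 msum).mul_right _
    have h4 : ∑' j, (m j : ℂ) * K (z * s j)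
        = ∑' j, (m j : ℂ) * (K (z * s j) - 2 * kap) + 1 := by
      have h5 : ∑' j, (m j : ℂ) * (2 * kap) = 1 := by
        rw [tsum_mul_right, ← Complex.ofReal_tsum]
        have : ((2 * kap * ∑' j, m j : ℝ) : ℂ) = 1 := by rw [hc']; simp
        rw [← this]; simp only [Complex.ofReal_mul, Complex.ofReal_ofNat]; ring
      rw [← h5, ← h2.tsum_add h3]
      congr 1; ext j; ring
    rw [h4, ← norm_pos_iff]
    exact lt_of_lt_of_le (Real.exp_pos _) h1

end Pool.Agent.Lib.MP_3f6bc3_an
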