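import Pool.Agent.Lib.MP_3f6bc3_an.Apriori

set_option autoImplicit false

namespace Pool.Agent.Lib.MP_3f6bc3_an

open Finset Real Complex ComplexConjugate

theorem pf_general {ι : Type*} [DecidableEq ι] (s : Finset ι) (t : ι → ℂ) (hinj : Set.InjOn t s)
    (h0 : ∀ i ∈ s, t i ≠ 0) (p : Polynomial ℂ) (hp : p.degree < s.card) (z : ℂ)
    (hz : ∀ i ∈ s, 1 - z * t i ≠ 0) :
    p.eval z / ∏ i ∈ s, (1 - z * t i)
      = ∑ i ∈ s, (p.eval (t i)⁻¹ / ∏ l ∈ s.erase i, (1 - t l / t i)) / (1 - z * t i) := by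
  have hv : Set.InjOn (fun i => (t i)⁻¹) s := fun i hi j hj h => hinj hi hj (inv_injective h)
  have hx : ∀ i ∈ s, z ≠ (t i)⁻¹ := by
    intro i hi h
    apply hz i hi
    rw [h, inv_mul_cancel₀ (h0 i hi), sub_self]
  have e := Lagrange.eq_interpolate hv hp
  have e2 := Lagrange.eval_interpolate_not_at_node (s := s) (v := fun i => (t i)⁻¹)
    (fun i => p.eval (t i)⁻¹) hx
  rw [← e] at e2
  rw [e2, Lagrange.eval_nodal, Finset.mul_sum, Finset.sum_div]
  apply Finset.sum_congr rfl
  intro i hi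
  rw [← Finset.mul_prod_erase s _ hi, ← Finset.mul_prod_erase s (fun i => 1 - z * t i) hi,
    Lagrange.nodalWeight]
  have key : (∏ l ∈ s.erase i, (z - (t l)⁻¹)) * ∏ l ∈ s.erase i, ((t i)⁻¹ - (t l)⁻¹)⁻¹
      = (∏ l ∈ s.erase i, (1 - z * t l)) / ∏ l ∈ s.erase i, (1 - t l / t i) := by
    rw [← Finset.prod_mul_distrib, ← Finset.prod_div_distrib]
    apply Finset.prod_congr rfl
    intro l hl
    have hl' := Finset.mem_of_mem_erase hl
    have a1 := h0 l hl'
    have a2 := h0 i hi
    have a3 : t l - t i ≠ 0 := sub_ne_zero.2 fun h => (Finset.ne_of_mem_erase hl) (hinj hl' hi h)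
    have a4 : t i - t l ≠ 0 := by rw [← neg_sub]; exact neg_ne_zero.2 a3
    field_simp
    ring
  have b1 : z - (t i)⁻¹ ≠ 0 := sub_ne_zero.2 (hx i hi)
  have b2 := hz i hi
  have b3 : ∏ l ∈ s.erase i, (1 - z * t l) ≠ 0 :=
    Finset.prod_ne_zero_iff.2 fun l hl => hz l (Finset.mem_of_mem_erase hl)
  calc _ = ((∏ l ∈ s.erase i, (z - (t l)⁻¹)) * ∏ l ∈ s.erase i, ((t i)⁻¹ - (t l)⁻¹)⁻¹)
        * p.eval (t i)⁻¹ / ((1 - z * t i) * ∏ l ∈ s.erase i, (1 - z * t l)) := by
          congr 1
          generalize z - (t i)⁻¹ = A at *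
          generalize (∏ l ∈ s.erase i, (z - (t l)⁻¹)) = B
          generalize (∏ l ∈ s.erase i, ((t i)⁻¹ - (t l)⁻¹)⁻¹) = C
          generalize p.eval (t i)⁻¹ = D
          field_simp
    _ = _ := by rw [key]; field_simp

noncomputable def om : ℂ := Complex.exp (bet * I)

lemma om_norm : ‖om‖ = 1 := Complex.norm_exp_ofReal_mul_I _

lemma om_conj : conj om = Complex.exp (-(bet * I)) := by
  unfold om; rw [← Complex.exp_conj]; simp

lemma om_mul_conj : om * conj om = 1 := by
  rw [Complex.mul_conj, Complex.normSq_eq_norm_sq, om_norm]; simp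

lemma om_ne : om ≠ 0 := Complex.exp_ne_zero _

lemma om_conj_ne : conj om ≠ 0 := by rw [om_conj]; exact Complex.exp_ne_zero _

lemma om_conj_inv : (conj om)⁻¹ = om := inv_eq_of_mul_eq_one_left om_mul_conj

lemma om_inv : om⁻¹ = conj om := inv_eq_of_mul_eq_one_right om_mul_conj

lemma om_re : om.re = -kap := by unfold om; rw [Complex.exp_ofReal_mul_I_re, cos_bet]

lemma om_im_pos : 0 < om.im := by
  unfold om; rw [Complex.exp_ofReal_mul_I_im]; exact Real.sin_pos_of_pos_of_lt_pi bet_pos bet_lt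

lemma om_add_conj : om + conj om = -2 * kap := by
  rw [Complex.add_conj, om_re]; push_cast; ring

lemma om_sq : om ^ 2 = -Complex.exp (eta * I) := by
  unfold om
  rw [← Complex.exp_nat_mul]
  have : ((2 : ℕ) : ℂ) * (bet * I) = eta * I + π * I := by
    unfold bet eta; push_cast; ring
  rw [this, Complex.exp_add, Complex.exp_pi_mul_I]; ring

noncomputable def Q (t : ℂ) : ℂ := 1 + 2 * kap * t + t ^ 2
noncomputable def K (t : ℂ) : ℂ := 2 * (t + kap) / Q t

lemma Q_eq (t : ℂ) : Q t = (1 - t * conj om) * (1 - t * om) := by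
  unfold Q
  linear_combination t * om_add_conj - t ^ 2 * om_mul_conj

lemma K_eq {t : ℂ} (h : Q t ≠ 0) :
    K t = -conj om / (1 - t * conj om) + -om / (1 - t * om) := by
  unfold K
  rw [Q_eq] at *
  have h1 := left_ne_zero_of_mul h
  have h2 := right_ne_zero_of_mul h
  rw [div_add_div _ _ h1 h2]
  congr 1
  linear_combination om_add_conj - 2 * t * om_mul_conj

lemma prod_sign (N k : ℕ) (hk : k < N) (s : ℕ → ℝ) (hs : ∀ j < N, 0 < s j)
    (hanti : ∀ i j, i < j → j < N → s j < s i) :
    ∏ j ∈ (range N).erase k, (1 - s j / s k)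
      = (-1) ^ k * ∏ j ∈ (range N).erase k, |1 - s j / s k| := by
  have h1 : ∏ j ∈ (range N).erase k, (1 - s j / s k)
      = ∏ j ∈ (range N).erase k, ((if j < k then (-1 : ℝ) else 1) * |1 - s j / s k|) := by
    apply Finset.prod_congr rfl
    intro j hj
    have hjN := Finset.mem_range.1 (Finset.mem_of_mem_erase hj)
    have hjk := Finset.ne_of_mem_erase hj
    split_ifs with h
    · have : 1 < s j / s k := (one_lt_div (hs k hk)).2 (hanti j k h hk)
      rw [abs_of_neg (by linarith)]; ring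
    · have : s j / s k < 1 := (div_lt_one (hs k hk)).2 (hanti k j (by omega) hjN)
      rw [abs_of_pos (by linarith)]; ring
  rw [h1, Finset.prod_mul_distrib, Finset.prod_ite]
  have : ((range N).erase k).filter (fun j => j < k) = range k := by
    ext j; simp; omega
  rw [this]; simp

/-- the normalised masses at the finite stage -/
noncomputable def mass (N M : ℕ) (s : ℕ → ℝ) (ρ : ℝ) (k : ℕ) : ℝ :=
  ‖1 + ((ρ / s k : ℝ) : ℂ) * om‖ ^ M /
    ((∏ j ∈ (range N).erase k, |1 - s j / s k|) *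
      ∏ j ∈ range N, ‖1 + ((s j / s k : ℝ) : ℂ) * Complex.exp (eta * I)‖)

lemma mass_nonneg (N M : ℕ) (s : ℕ → ℝ) (ρ : ℝ) (k : ℕ) : 0 ≤ mass N M s ρ k := by
  unfold mass; positivity

lemma residue_eq (N M : ℕ) (s : ℕ → ℝ) (ρ : ℝ) (hs : ∀ j < N, 0 < s j)
    (hanti : ∀ i j, i < j → j < N → s j < s i) (k : ℕ) (hk : k < N)
    (he : (M : ℝ) * G bet (ρ / s k) - ∑ j ∈ range N, G eta (s j / s k) = π * (k + 1) - bet) :
    (1 + ((ρ / s k : ℝ) : ℂ) * om) ^ M /
      ((∏ j ∈ (range N).erase k, ((1 - s j / s k : ℝ) : ℂ)) *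
        ∏ j ∈ range N, (1 + ((s j / s k : ℝ) : ℂ) * Complex.exp (eta * I)))
      = mass N M s ρ k * -conj om := by
  have e1 : (1 + ((ρ / s k : ℝ) : ℂ) * om) ^ M
      = ((‖1 + ((ρ / s k : ℝ) : ℂ) * om‖ ^ M : ℝ) : ℂ)
        * Complex.exp (((M : ℝ) * G bet (ρ / s k) : ℝ) * I) := by
    have := exp_G bet (ρ / s k)
    unfold om
    conv_lhs => rw [this]
    rw [mul_pow, ← Complex.exp_nat_mul]
    push_cast
    congr 2
    ring
  have e2 : ∏ j ∈ range N, (1 + ((s j / s k : ℝ) : ℂ) * Complex.exp (eta * I))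
      = ((∏ j ∈ range N, ‖1 + ((s j / s k : ℝ) : ℂ) * Complex.exp (eta * I)‖ : ℝ) : ℂ)
        * Complex.exp ((∑ j ∈ range N, G eta (s j / s k) : ℝ) * I) := by
    rw [Complex.ofReal_prod, Complex.ofReal_sum, Finset.sum_mul, Complex.exp_sum,
      ← Finset.prod_mul_distrib]
    exact Finset.prod_congr rfl fun j _ => exp_G eta (s j / s k)
  have e3 : Complex.exp (((M : ℝ) * G bet (ρ / s k) : ℝ) * I)
      = (-1) ^ k * -conj om * Complex.exp ((∑ j ∈ range N, G eta (s j / s k) : ℝ) * I) := by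
    have : (M : ℝ) * G bet (ρ / s k) = π * (k + 1) - bet + ∑ j ∈ range N, G eta (s j / s k) := by
      linarith
    rw [this, om_conj, ← Complex.exp_pi_mul_I, ← Complex.exp_nat_mul, ← neg_one_mul,
      ← Complex.exp_pi_mul_I, ← Complex.exp_add, ← Complex.exp_add, ← Complex.exp_add]
    congr 1
    push_cast
    ring
  rw [e1, e2, e3, ← Complex.ofReal_prod, prod_sign N k hk s hs hanti]
  unfold mass
  have n1 : Complex.exp ((∑ j ∈ range N, G eta (s j / s k) : ℝ) * I) ≠ 0 := Complex.exp_ne_zero _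
  have n2 : ((-1 : ℂ)) ^ k ≠ 0 := pow_ne_zero _ (by norm_num)
  generalize Complex.exp ((∑ j ∈ range N, G eta (s j / s k) : ℝ) * I) = A at *
  generalize (∏ j ∈ (range N).erase k, |1 - s j / s k|) = B
  generalize (∏ j ∈ range N, ‖1 + ((s j / s k : ℝ) : ℂ) * Complex.exp (eta * I)‖) = C
  generalize ‖1 + ((ρ / s k : ℝ) : ℂ) * om‖ ^ M = D
  push_cast
  field_simp

theorem pf_stage (N M : ℕ) (hM : M + 1 = 2 * N) (s : ℕ → ℝ) (ρ : ℝ) (hs : ∀ j < N, 0 < s j)
    (hanti : ∀ i j, i < j → j < N → s j < s i)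
    (he : ∀ k < N,
      (M : ℝ) * G bet (ρ / s k) - ∑ j ∈ range N, G eta (s j / s k) = π * (k + 1) - bet)
    (z : ℂ) (hz : ∀ j < N, Q (z * s j) ≠ 0) :
    ∑ j ∈ range N, mass N M s ρ j * K (z * s j) = (1 + ρ * z) ^ M / ∏ j ∈ range N, Q (z * s j) := by
  classical
  have sinj : ∀ i < N, ∀ j < N, s i = s j → i = j := by
    intro i hi j hj h
    rcases lt_trichotomy i j with c | c | c
    · exact absurd h (hanti i j c hj).ne'
    · exact c
    · exact absurd h (hanti j i c hi).ne
  have sne : ∀ j < N, (s j : ℂ) ≠ 0 := fun j hj => by exact_mod_cast (hs j hj).ne'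
  have him := om_im_pos
  have := pf_general ((range N).disjSum (range N))
    (Sum.elim (fun j => (s j : ℂ) * conj om) (fun j => (s j : ℂ) * om))
    (by
      rintro (i | i) hi (j | j) hj h <;>
        simp only [Finset.mem_coe, Finset.inl_mem_disjSum, Finset.inr_mem_disjSum,
          Finset.mem_range, Sum.elim_inl, Sum.elim_inr] at hi hj h
      · have := mul_right_cancel₀ om_conj_ne h
        rw [sinj i hi j hj (by exact_mod_cast this)]
      · have := congrArg Complex.im h
        simp at this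
        nlinarith [mul_pos (hs i hi) him, mul_pos (hs j hj) him]
      · have := congrArg Complex.im h
        simp at this
        nlinarith [mul_pos (hs i hi) him, mul_pos (hs j hj) him]
      · have := mul_right_cancel₀ om_ne h
        rw [sinj i hi j hj (by exact_mod_cast this)])
    (by
      rintro (i | i) hi <;>
        simp only [Finset.inl_mem_disjSum, Finset.inr_mem_disjSum,
          Finset.mem_range, Sum.elim_inl, Sum.elim_inr] at hi ⊢
      · exact mul_ne_zero (sne i hi) om_conj_ne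
      · exact mul_ne_zero (sne i hi) om_ne)
    ((1 + Polynomial.C (ρ : ℂ) * Polynomial.X) ^ M)
    (by
      refine lt_of_le_of_lt (Polynomial.degree_le_of_natDegree_le (n := M) ?_) ?_
      · refine Polynomial.natDegree_pow_le.trans ?_
        have : (1 + Polynomial.C (ρ : ℂ) * Polynomial.X).natDegree ≤ 1 := by compute_degree
        simpa using Nat.mul_le_mul_left M this
      · rw [Finset.card_disjSum, Finset.card_range]
        exact_mod_cast (by omega : M < N + N))
    z
    (by
      rintro (i | i) hi <;>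
        simp only [Finset.inl_mem_disjSum, Finset.inr_mem_disjSum,
          Finset.mem_range, Sum.elim_inl, Sum.elim_inr] at hi ⊢
      · have := hz i hi
        rw [Q_eq] at this
        rw [← mul_assoc]
        exact left_ne_zero_of_mul this
      · have := hz i hi
        rw [Q_eq] at this
        rw [← mul_assoc]
        exact right_ne_zero_of_mul this)
  rw [Finset.prod_disjSum, Finset.sum_disjSum, ← Finset.prod_mul_distrib,
    ← Finset.sum_add_distrib] at this
  simp only [Sum.elim_inl, Sum.elim_inr, Polynomial.eval_pow, Polynomial.eval_add,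
    Polynomial.eval_one, Polynomial.eval_mul, Polynomial.eval_C, Polynomial.eval_X] at this
  have hprod : ∏ j ∈ range N, Q (z * s j)
      = ∏ j ∈ range N, (1 - z * (s j * conj om)) * (1 - z * (s j * om)) := by
    apply Finset.prod_congr rfl
    intro j _
    rw [Q_eq]; ring
  rw [hprod, this]
  apply Finset.sum_congr rfl
  intro k hk
  have hk' := Finset.mem_range.1 hk
  have er1 : ((range N).disjSum (range N)).erase (Sum.inl k)
      = ((range N).erase k).disjSum (range N) := by
    ext (i | i) <;> simp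
  have er2 : ((range N).disjSum (range N)).erase (Sum.inr k)
      = (range N).disjSum ((range N).erase k) := by
    ext (i | i) <;> simp
  have r1 := residue_eq N M s ρ hs hanti k hk' (he k hk')
  have r2 := congrArg conj r1
  have hk0 := sne k hk'
  have c1 : (1 + (ρ : ℂ) * ((s k : ℂ) * conj om)⁻¹) = 1 + ((ρ / s k : ℝ) : ℂ) * om := by
    rw [mul_inv, om_conj_inv]; push_cast; ring
  have c2 : (1 + (ρ : ℂ) * ((s k : ℂ) * om)⁻¹) = conj (1 + ((ρ / s k : ℝ) : ℂ) * om) := by
    rw [mul_inv, om_inv, map_add, map_mul, Complex.conj_ofReal, map_one]; push_cast; ring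
  have c3 : ∀ j, 1 - (s j : ℂ) * conj om / (s k * conj om) = ((1 - s j / s k : ℝ) : ℂ) := by
    intro j; have := om_conj_ne; push_cast; field_simp
  have c4 : ∀ j, 1 - (s j : ℂ) * om / (s k * om) = conj ((1 - s j / s k : ℝ) : ℂ) := by
    intro j; have := om_ne; rw [Complex.conj_ofReal]; push_cast; field_simp
  have c5 : ∀ j, 1 - (s j : ℂ) * om / (s k * conj om)
      = 1 + ((s j / s k : ℝ) : ℂ) * Complex.exp (eta * I) := by
    intro j
    rw [div_eq_mul_inv, mul_inv, om_conj_inv]
    push_cast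
    linear_combination (-(s j : ℂ) / s k) * om_sq
  have c6 : ∀ j, 1 - (s j : ℂ) * conj om / (s k * om)
      = conj (1 + ((s j / s k : ℝ) : ℂ) * Complex.exp (eta * I)) := by
    intro j
    rw [← c5]
    simp
  rw [er1, er2, Finset.prod_disjSum, Finset.prod_disjSum]
  simp only [Sum.elim_inl, Sum.elim_inr, c1, c2, c3, c4, c5, c6]
  rw [r1, ← map_pow, ← map_prod, ← map_prod, ← map_mul, ← map_div₀,
    mul_comm (∏ j ∈ range N, _), r2, K_eq (hz k hk')]
  simp only [map_mul, Complex.conj_ofReal, map_neg, Complex.conj_conj]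
  ring

end Pool.Agent.Lib.MP_3f6bc3_an
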