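import Pool.Agent.Lib.MP_3f6bc3_an.Limit

set_option autoImplicit false

namespace Pool.Agent.Lib.MP_3f6bc3_an

open Finset Real Complex ComplexConjugate Filter Topology

lemma summable_half (s m : ℕ → ℝ) (hs : Tendsto s atTop (𝓝 0)) (hm0 : ∀ j, 0 < m j)
    (hm : Summable m) (z w : ℂ) (hw : ‖w‖ = 1) :
    Summable fun j => (m j : ℂ) * (z * s j - w)⁻¹ := by
  obtain ⟨J, hJ⟩ := eventually_atTop.1
    (((Complex.continuous_ofReal.tendsto _).comp hs).const_mul z |>.norm.eventually
      (ge_mem_nhds (show ‖z * ((0 : ℝ) : ℂ)‖ < 1 / 2 by simp)))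
  refine (tail_bound m _ (∑' j, m j) 2 J (fun j => (hm0 j).le)
    (fun n => hm.sum_le_tsum _ fun j _ => (hm0 j).le) (by norm_num) fun j hj => ?_).1
  have a : ‖z * s j‖ ≤ 1 / 2 := hJ j hj
  have b := norm_sub_norm_le w (z * s j)
  rw [norm_inv, norm_sub_rev, inv_le_comm₀ (by linarith) (by norm_num)]
  linarith

theorem complex_config : ∃ (x : ℕ → ℂ) (a : ℕ → ℝ), Function.Injective x ∧ (∀ k, x k ≠ 0) ∧
    Tendsto (fun k => ‖x k‖) atTop atTop ∧ (∀ k, 0 < a k) ∧ Summable (fun k => a k / ‖x k‖) ∧
    ∀ z : ℂ, (∀ k, z ≠ x k) → ∃ w : ℂ, w ≠ 0 ∧ HasSum (fun k => (a k : ℂ) * (z - x k)⁻¹) w := by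
  obtain ⟨s, m, spos, sinj, slim, mpos, msum, hz⟩ := limit_config
  have sne : ∀ j, (s j : ℂ) ≠ 0 := fun j => by exact_mod_cast (spos j).ne'
  set x : ℕ → ℂ := fun k => (if k % 2 = 0 then om else conj om) / s (k / 2) with hx
  have xn : ∀ k, ‖x k‖ = (s (k / 2))⁻¹ := by
    intro k
    simp only [hx]
    split_ifs <;> simp [om_norm, abs_of_pos (spos _)]
  have x0 : ∀ j, x (2 * j) = om / s j := by
    intro j; simp [hx]
  have x1 : ∀ j, x (2 * j + 1) = conj om / s j := by
    intro j
    have : (2 * j + 1) / 2 = j := by omega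
    simp [hx, this]
  have him := om_im_pos
  refine ⟨x, fun k => m (k / 2) / s (k / 2), ?_, ?_, ?_, ?_, ?_, ?_⟩
  · intro k l h
    have h1 : k / 2 = l / 2 := by
      apply sinj
      have := congrArg norm h
      rwa [xn, xn, inv_inj] at this
    simp only [hx, h1] at h
    rw [div_left_inj' (sne _)] at h
    split_ifs at h with c1 c2 c2
    · omega
    · have := congrArg Complex.im h
      simp at this; linarith
    · have := congrArg Complex.im h
      simp at this; linarith
    · omega
  · intro k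
    rw [← norm_pos_iff, xn]
    exact inv_pos.2 (spos _)
  · simp only [xn]
    have h1 : Tendsto s atTop (𝓝[>] 0) :=
      tendsto_nhdsWithin_iff.2 ⟨slim, Eventually.of_forall spos⟩
    exact (tendsto_inv_nhdsGT_zero.comp h1).comp (Nat.tendsto_div_const_atTop two_ne_zero)
  · exact fun k => div_pos (mpos _) (spos _)
  · have e : ∀ k, m (k / 2) / s (k / 2) / ‖x k‖ = m (k / 2) := by
      intro k
      have := (spos (k / 2)).ne'
      rw [xn]; field_simp
    simp only [e]
    apply Summable.even_add_odd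
    · simpa using msum
    · have : ∀ j, (2 * j + 1) / 2 = j := fun j => by omega
      simpa [this] using msum
  · intro z hzx
    have n0 : ∀ j, z * s j - om ≠ 0 := by
      intro j h
      apply hzx (2 * j)
      rw [x0, eq_div_iff (sne j)]
      exact sub_eq_zero.1 h
    have n1 : ∀ j, z * s j - conj om ≠ 0 := by
      intro j h
      apply hzx (2 * j + 1)
      rw [x1, eq_div_iff (sne j)]
      exact sub_eq_zero.1 h
    have hQe : ∀ t : ℂ, Q t = (t - om) * (t - conj om) := by
      intro t
      unfold Q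
      linear_combination t * om_add_conj - om_mul_conj
    have hQ : ∀ j, Q (z * s j) ≠ 0 := fun j => by rw [hQe]; exact mul_ne_zero (n0 j) (n1 j)
    have hK : ∀ j, K (z * s j) = (z * s j - om)⁻¹ + (z * s j - conj om)⁻¹ := by
      intro j
      unfold K
      rw [hQe, inv_add_inv (n0 j) (n1 j)]
      congr 1
      linear_combination om_add_conj
    have s0 := summable_half s m slim mpos msum z om om_norm
    have s1 := summable_half s m slim mpos msum z (conj om) (by simp [om_norm])
    refine ⟨_, hz z hQ, ?_⟩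
    simp only [hK, mul_add]
    rw [s0.tsum_add s1]
    apply HasSum.even_add_odd
    · have e : (fun j => ((m (2 * j / 2) / s (2 * j / 2) : ℝ) : ℂ) * (z - x (2 * j))⁻¹)
          = fun j => (m j : ℂ) * (z * s j - om)⁻¹ := by
        ext j
        have := sne j
        have h2 : 2 * j / 2 = j := by omega
        have h3 : z - om / s j = (z * s j - om) / s j := by field_simp
        rw [x0, h2, h3]
        push_cast
        have := n0 j
        field_simp
      rw [e]; exact s0.hasSum
    · have e : (fun j => ((m ((2 * j + 1) / 2) / s ((2 * j + 1) / 2) : ℝ) : ℂ)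
          * (z - x (2 * j + 1))⁻¹) = fun j => (m j : ℂ) * (z * s j - conj om)⁻¹ := by
        ext j
        have := sne j
        have h2 : (2 * j + 1) / 2 = j := by omega
        have h3 : z - conj om / s j = (z * s j - conj om) / s j := by field_simp
        rw [x1, h2, h3]
        push_cast
        have := n1 j
        field_simp
      rw [e]; exact s1.hasSum

theorem plane_config : ∃ (x : ℕ → EuclideanSpace ℝ (Fin 2)) (a : ℕ → ℝ),
    Function.Injective x ∧ (∀ k, x k ≠ 0) ∧ Tendsto (fun k => ‖x k‖) atTop atTop ∧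
    (∀ k, 0 < a k) ∧ Summable (fun k => a k / ‖x k‖) ∧
    ∀ y, y ∉ Set.range x →
      ∃ F, F ≠ 0 ∧ HasSum (fun k => (a k / ‖y - x k‖ ^ 2) • (x k - y)) F := by
  obtain ⟨x, a, h1, h2, h3, h4, h5, h6⟩ := complex_config
  let e := Complex.orthonormalBasisOneI.repr
  refine ⟨fun k => e (x k), a, e.injective.comp h1, fun k => by simpa using h2 k,
    by simpa using h3, h4, by simpa using h5, ?_⟩
  intro y hy
  obtain ⟨z, rfl⟩ := e.surjective y
  obtain ⟨w, hw0, hw⟩ := h6 z fun k h => hy ⟨k, by rw [h]⟩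
  refine ⟨e (-conj w), by simpa using hw0, ?_⟩
  have hw1 : HasSum (fun k => -conj ((a k : ℂ) * (z - x k)⁻¹)) (-conj w) :=
    (Complex.hasSum_conj'.2 hw).neg
  have hw2 := hw1.mapL (e.toContinuousLinearEquiv : ℂ →L[ℝ] EuclideanSpace ℝ (Fin 2))
  have key : ∀ k, (a k / ‖e z - e (x k)‖ ^ 2) • (e (x k) - e z)
      = e (-conj ((a k : ℂ) * (z - x k)⁻¹)) := by
    intro k
    rw [← map_sub, ← map_sub, e.norm_map, ← map_smul]
    congr 1
    rw [Complex.inv_def, Complex.real_smul, Complex.normSq_eq_norm_sq]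
    simp only [map_mul, Complex.conj_ofReal, Complex.conj_conj]
    push_cast
    ring
  simp only [key]
  exact hw2

end Pool.Agent.Lib.MP_3f6bc3_an
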